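import Pool.Agent.E8helper57.AX.Apex

/-!
# Project AX: piece B3, with `ph_coeff`, `ph_taylor`, `colp_taylor`, `colp_coeff`, `core` as hypotheses
-/

set_option autoImplicit false

namespace Pool.Agent.E8helper57

open Finset Polynomial
open Pool.Agent.E8helper80.AX

theorem apexzero
    (ph_coeff : ∀ (f : (ℤ × ℤ) →₀ ℚ) (c : ℤ) (k : ℕ), (ph f c).coeff k = wc f (c + k) k)
    (ph_taylor : ∀ (f : (ℤ × ℤ) →₀ ℚ) (c : ℤ) (b : ℕ), (taylor 1 (ph f c)).coeff b = tc f c b)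
    (colp_taylor : ∀ (f : (ℤ × ℤ) →₀ ℚ) (t : ℤ) (k : ℕ),
      (taylor 1 (colp f t)).coeff k = wc f t k)
    (colp_coeff : ∀ (f : (ℤ × ℤ) →₀ ℚ), (∀ p ∈ f.support, 0 ≤ p.2) → ∀ (t : ℤ) (j : ℕ),
      (colp f t).coeff j = f (t, (j : ℤ)))
    (core : ∀ {m h e N : ℕ}, 3 ≤ e → h = m + e → 9 * e ≤ m → m ≤ 10 * e → N ≤ 9 → 1 ≤ N →
      ∀ b : ℕ → ℕ → ℚ,
      (∀ i ≤ N, ∃ r : Polynomial ℚ, r.natDegree ≤ i ∧
        (∀ t ≤ N, b t i = ((1 - X) ^ (m - 2 * i) * r).coeff t) ∧ (i = N → r.eval 1 = 0)) →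
      (∀ t ≤ N, ∃ g : Polynomial ℚ, g.natDegree ≤ t - 1 ∧
        ∀ i ≤ N, b t i = ((1 + X) ^ (h - 2 * t) * g).coeff i) → b 0 0 = 0)
    {h m : ℕ} (hm : 1 ≤ m) (hd0 : 0 ≤ KK * h - (KK + 1) * m)
    (hd1 : KK * h - (KK + 1) * m < 9 * (10 - 3 * √11))
    {f : (ℤ × ℤ) →₀ ℚ} (hf : (↑f.support : Set (ℤ × ℤ)) ⊆ AB h)
    (hH : ∀ b < m, ∀ c : ℤ, ⌊KK * h - (KK + 1) * (b : ℝ)⌋ < c + 11 * ((m : ℤ) - b) →
      tc f c b = 0) :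
    f (0, (h : ℤ)) = 0 :=
  AX.apexzero_of ph_coeff ph_taylor colp_taylor colp_coeff core hm hd0 hd1 hf hH

end Pool.Agent.E8helper57
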