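import Mathlib

/-!
# Ordinary and Brauer characters, blocks and unitriangular decomposition matrices

The set-up is the one of Navarro's book *Characters and Blocks of Finite Groups*: the ring of algebraic
integers of `ℂ` is reduced modulo a maximal ideal containing the prime `ℓ`, the residue field being an
algebraic closure of the field with `ℓ` elements.
-/

set_option autoImplicit false

namespace Pool.Agent.E8helper57.Unitri

/-- The ring of all algebraic integers in `ℂ`. -/
abbrev AlgInt : Type := integralClosure ℤ ℂ

/-- The algebraic closure of the field with `ℓ` elements. -/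
abbrev Kbar (ℓ : ℕ) [Fact ℓ.Prime] : Type := AlgebraicClosure (ZMod ℓ)

/-- The `ℓ`-regular elements of a group: the elements of order prime to `ℓ`. -/
abbrev Reg (ℓ : ℕ) (G : Type) [Group G] : Type := {g : G // (orderOf g).Coprime ℓ}

/-- `x` is a root of unity of order prime to `ℓ`. -/
def IsRegRoot (ℓ : ℕ) (x : AlgInt) : Prop := ∃ m : ℕ, m.Coprime ℓ ∧ x ^ m = 1

variable {ℓ : ℕ} [Fact ℓ.Prime]

/-- The function `φ` on `ℓ`-regular elements is the Brauer character of the representation `ρ` over the
algebraic closure of the field with `ℓ` elements (with respect to the reduction map `red` from the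
algebraic integers): `φ g` is the sum of the complex roots of unity of order prime to `ℓ` whose reductions
are the eigenvalues of `ρ g`, with multiplicities. -/
def IsBrauerCharOf (red : AlgInt →+* Kbar ℓ) {G : Type} [Group G] {V : Type} [AddCommGroup V]
    [Module (Kbar ℓ) V] [FiniteDimensional (Kbar ℓ) V] (ρ : Representation (Kbar ℓ) G V)
    (φ : Reg ℓ G → ℂ) : Prop :=
  ∀ g : Reg ℓ G, ∃ s : Multiset AlgInt, (∀ x ∈ s, IsRegRoot ℓ x) ∧
    s.map red = (LinearMap.charpoly (ρ g.1)).roots ∧ φ g = (s.map (fun x : AlgInt => (x : ℂ))).sum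

/-- The action of the sum of the elements of a conjugacy class (of a finite group). -/
noncomputable def classSum {K : Type} [Field K] {G : Type} [Group G] {V : Type}
    [AddCommGroup V] [Module K V] (ρ : Representation K G V) (C : ConjClasses G) : V →ₗ[K] V :=
  ∑ᶠ g ∈ C.carrier, ρ g

/-- The irreducible Brauer characters `φ` with `λ_φ = lam`: those of the irreducible representations on
which the sum of the elements of each conjugacy class `C` acts as the scalar `lam C`. -/
def IBr (red : AlgInt →+* Kbar ℓ) {G : Type} [Group G] (lam : ConjClasses G → Kbar ℓ) :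
    Set (Reg ℓ G → ℂ) :=
  {φ | ∃ (n : ℕ) (ρ : Representation (Kbar ℓ) G (Fin n → Kbar ℓ)), ρ.IsIrreducible ∧
    IsBrauerCharOf red ρ φ ∧ ∀ C, classSum ρ C = lam C • LinearMap.id}

/-- The ordinary irreducible characters `χ` with `λ_χ = lam`: those of the irreducible complex
representations on which the sum of the elements of each conjugacy class `C` acts as a scalar (an
algebraic integer) whose reduction is `lam C`. -/
def Irr (red : AlgInt →+* Kbar ℓ) {G : Type} [Group G] (lam : ConjClasses G → Kbar ℓ) :
    Set (G → ℂ) :=
  {χ | ∃ (n : ℕ) (ρ : Representation ℂ G (Fin n → ℂ)), ρ.IsIrreducible ∧ χ = ρ.character ∧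
    ∀ C, ∃ w : AlgInt, red w = lam C ∧ classSum ρ C = (w : ℂ) • LinearMap.id}

/-- The function `lam` is the central character of a block: it is `λ_φ` for an irreducible Brauer
character `φ`.  The block `B` consists of `Irr red lam` and `IBr red lam`. -/
def IsBlock (red : AlgInt →+* Kbar ℓ) {G : Type} [Group G] (lam : ConjClasses G → Kbar ℓ) :
    Prop := (IBr red lam).Nonempty

/-- The decomposition matrix of the block with central character `lam` is unitriangular: there are
pairwise distinct `χ_1, …, χ_n` in `Irr B` and an ordering `φ_1, …, φ_n` of `IBr B` such that the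
decomposition numbers `d i j`, defined by `χ_i⁰ = ∑ j, d i j • φ_j`, satisfy `d i i = 1` for all `i`, and
`d i j = 0` for `j > i`. -/
def IsUnitriangular (red : AlgInt →+* Kbar ℓ) {G : Type} [Group G]
    (lam : ConjClasses G → Kbar ℓ) : Prop :=
  ∃ (n : ℕ) (χ : Fin n → G → ℂ) (φ : Fin n → Reg ℓ G → ℂ) (d : Fin n → Fin n → ℕ),
    Function.Injective χ ∧ (∀ i, χ i ∈ Irr red lam) ∧
    Function.Injective φ ∧ Set.range φ = IBr red lam ∧
    (∀ i, (fun g : Reg ℓ G => χ i g.1) = ∑ j, d i j • φ j) ∧
    (∀ i, d i i = 1) ∧ ∀ i j, i < j → d i j = 0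

end Pool.Agent.E8helper57.Unitri
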