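import Mathlib

set_option autoImplicit false

namespace Pool.Agent.E8helper57

open Finset

/-- Hadamard's inequality for real matrices (rows). -/
theorem hadamard (n : ℕ) (M : Matrix (Fin n) (Fin n) ℝ) :
    |M.det| ≤ ∏ i, Real.sqrt (∑ j, M i j ^ 2) := by
  classical
  let E := EuclideanSpace ℝ (Fin n)
  haveI : Fact (Module.finrank ℝ E = n) := ⟨by simp [E]⟩
  let b : OrthonormalBasis (Fin n) ℝ E := EuclideanSpace.basisFun (Fin n) ℝ
  let v : Fin n → E := fun i => WithLp.toLp 2 (M i)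
  let o : Orientation ℝ E (Fin n) := b.toBasis.orientation
  have h1 := o.abs_volumeForm_apply_le v
  rw [o.volumeForm_robust' b] at h1
  have h2 : b.toBasis.det v = M.transpose.det := by
    rw [Module.Basis.det_apply]
    congr 1
  rw [h2, Matrix.det_transpose] at h1
  refine h1.trans (le_of_eq ?_)
  refine Finset.prod_congr rfl fun i _ => ?_
  rw [EuclideanSpace.norm_eq]
  congr 1
  refine Finset.sum_congr rfl fun j _ => ?_
  simp [v]

/-- Hadamard's inequality for rational matrices over a finite index set, in squared form. -/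
theorem hadamard_sq {T : Type*} [Fintype T] [DecidableEq T] (M : Matrix T T ℚ) :
    M.det ^ 2 ≤ ∏ i, ∑ j, M i j ^ 2 := by
  classical
  let e := Fintype.equivFin T
  let N : Matrix (Fin (Fintype.card T)) (Fin (Fintype.card T)) ℝ :=
    (M.submatrix e.symm e.symm).map (Rat.cast : ℚ → ℝ)
  have h1 := hadamard _ N
  have h2 : N.det = ((M.det : ℚ) : ℝ) := by
    have h3 : N = (Rat.castHom ℝ).mapMatrix (M.submatrix e.symm e.symm) := rfl
    rw [h3, ← RingHom.map_det, Matrix.det_submatrix_equiv_self]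
    rfl
  rw [h2] at h1
  have h4 : ((M.det : ℚ) : ℝ) ^ 2 ≤ (∏ i, Real.sqrt (∑ j, N i j ^ 2)) ^ 2 := by
    rw [← sq_abs]
    exact pow_le_pow_left₀ (abs_nonneg _) h1 2
  rw [← Finset.prod_pow] at h4
  have h5 : ∏ i, Real.sqrt (∑ j, N i j ^ 2) ^ 2 = ((∏ i, ∑ j, M i j ^ 2 : ℚ) : ℝ) := by
    push_cast
    rw [← Equiv.prod_comp e.symm]
    refine Finset.prod_congr rfl fun i _ => ?_
    rw [Real.sq_sqrt (Finset.sum_nonneg fun _ _ => sq_nonneg _)]
    rw [← Equiv.sum_comp e.symm]
    rfl
  rw [h5] at h4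
  exact_mod_cast h4

end Pool.Agent.E8helper57
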