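import Mathlib
import Pool.Agent.E8helper57.Hadamard

set_option autoImplicit false

namespace Pool.Agent.E8helper57

open Finset

/-- Selection of an invertible system of rows. -/
lemma select {T : Type*} [Fintype T] [DecidableEq T] (R : Set (T → ℚ)) (t1 : T)
    (huniq : ∀ u : T → ℚ, (∀ r ∈ R, ∑ t, r t * u t = 0) → u t1 = 0 → u = 0) :
    ∃ (B : Matrix T T ℚ) (r0 : T), B.det ≠ 0 ∧ B r0 = Pi.single t1 1 ∧ ∀ i ≠ r0, B i ∈ R := by
  classical
  let s1 : T → ℚ := Pi.single t1 1
  have hs1 : s1 ≠ 0 := by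
    intro h
    have := congrFun h t1
    simp [s1] at this
  have hli : LinearIndepOn ℚ id ({s1} : Set (T → ℚ)) := LinearIndepOn.singleton hs1
  obtain ⟨b, hbt, hsb, htb, hb⟩ := exists_linearIndepOn_id_extension hli
    (show ({s1} : Set (T → ℚ)) ⊆ insert s1 R from by
      rintro x hx; exact Set.mem_insert_iff.2 (Or.inl hx))
  have htop : Submodule.span ℚ b = ⊤ := by
    by_contra hne
    obtain ⟨f, hf, hle⟩ := Submodule.exists_le_ker_of_lt_top _ (lt_top_iff_ne_top.2 hne)
    apply hf
    have hker : ∀ r ∈ insert s1 R, f r = 0 := fun r hr => by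
      have := hle (htb hr)
      simpa using this
    have hfr : ∀ r : T → ℚ, f r = ∑ t, r t * f (Pi.single t 1) := by
      intro r
      conv_lhs => rw [← Finset.univ_sum_single r]
      rw [map_sum]
      refine Finset.sum_congr rfl fun t _ => ?_
      have : (Pi.single t (r t) : T → ℚ) = r t • Pi.single t 1 := by
        rw [← Pi.single_smul, smul_eq_mul, mul_one]
      rw [this, map_smul, smul_eq_mul]
    have hu := huniq (fun t => f (Pi.single t 1))
      (fun r hr => by rw [← hfr]; exact hker r (Set.mem_insert_of_mem _ hr))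
      (hker s1 (Set.mem_insert _ _))
    apply LinearMap.ext
    intro r
    rw [hfr]
    simp only [LinearMap.zero_apply]
    refine Finset.sum_eq_zero fun t _ => ?_
    have := congrFun hu t
    simp only [Pi.zero_apply] at this
    rw [this, mul_zero]
  -- `b` is a basis
  have hb' : LinearIndependent ℚ (Subtype.val : b → T → ℚ) := hb
  let bas : Module.Basis b ℚ (T → ℚ) := Module.Basis.mk hb' (by
    rw [Subtype.range_val]; exact htop.ge)
  let bas2 : Module.Basis T ℚ (T → ℚ) := Pi.basisFun ℚ T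
  let e : b ≃ T := bas.indexEquiv bas2
  have hs1b : s1 ∈ b := hsb rfl
  refine ⟨fun i => (e.symm i).1, e ⟨s1, hs1b⟩, ?_, ?_, ?_⟩
  · have h1 : LinearIndependent ℚ (fun i : T => ((e.symm i).1 : T → ℚ)) :=
      hb'.comp _ e.symm.injective
    have h2 := (Matrix.linearIndependent_rows_iff_isUnit
      (A := Matrix.of fun i : T => ((e.symm i).1 : T → ℚ))).1 h1
    exact ((Matrix.isUnit_iff_isUnit_det _).1 h2).ne_zero
  · change (e.symm (e ⟨s1, hs1b⟩)).1 = _
    rw [Equiv.symm_apply_apply]
  · intro i hi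
    have h3 : (e.symm i).1 ∈ insert s1 R := hbt (e.symm i).2
    rcases Set.mem_insert_iff.1 h3 with h | h
    · exfalso
      apply hi
      have : e.symm i = ⟨s1, hs1b⟩ := Subtype.ext h
      rw [← this, Equiv.apply_symm_apply]
    · exact h

/-- Bound for the solution of a sparse linear system. -/
lemma bound {T : Type*} [Fintype T] [DecidableEq T] (R : Set (T → ℚ)) (t1 : T)
    (huniq : ∀ u : T → ℚ, (∀ r ∈ R, ∑ t, r t * u t = 0) → u t1 = 0 → u = 0)
    (w : T → ℚ) (hw : ∀ r ∈ R, ∑ t, r t * w t = 0)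
    (hnorm : ∀ r ∈ R, ∑ t, r t ^ 2 ≤ 4)
    (l : T → ℕ) (hint : ∀ r ∈ R, ∀ t, ∃ z : ℤ, r t * 2 ^ l t = z) :
    ∃ I : T → ℤ, I t1 ≠ 0 ∧ (∀ t, (2 ^ l t1 * I t1 : ℤ) * w t = w t1 * (2 ^ l t * I t : ℤ)) ∧
      ∀ t, |2 ^ l t * I t| ≤ 2 ^ (∑ t, l t + (Fintype.card T - 1)) := by
  classical
  obtain ⟨B, r0, hdet, hr0, hB⟩ := select R t1 huniq
  -- the determinants
  let D : T → ℚ := fun t => (B.updateRow r0 (Pi.single t 1)).det
  have hD1 : D t1 = B.det := by
    have : B.updateRow r0 (Pi.single t1 1) = B := by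
      rw [← hr0]; exact Matrix.updateRow_eq_self B r0
    simp only [D, this]
  have hBw : B.mulVec w = Pi.single r0 (w t1) := by
    funext i
    by_cases hi : i = r0
    · subst hi
      rw [Matrix.mulVec, hr0]
      simp
    · rw [Pi.single_eq_of_ne hi]
      exact hw _ (hB i hi)
  have hcr : ∀ t, B.det * w t = w t1 * D t := by
    intro t
    have h1 : (B.adjugate * B).mulVec w = B.det • w := by
      rw [Matrix.adjugate_mul, Matrix.smul_mulVec, Matrix.one_mulVec]
    rw [← Matrix.mulVec_mulVec, hBw] at h1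
    have h2 := congrFun h1 t
    have h3 : (B.det • w) t = B.det * w t := rfl
    rw [← h3, ← h2, Matrix.mulVec_single]
    simp only [Pi.smul_apply, Matrix.col_apply, D, Matrix.adjugate_apply, MulOpposite.smul_eq_mul_unop, MulOpposite.unop_op]
    ring
  -- integrality
  have hI : ∀ t, ∃ z : ℤ, D t * 2 ^ (∑ t, l t) = (2 ^ l t * z : ℤ) := by
    intro t
    have h1 : ∀ i j, ∃ z : ℤ, (if i = r0 then (Pi.single t 1 : T → ℚ) j else B i j * 2 ^ l j) = z := by
      intro i j
      split_ifs with h
      · by_cases hj : j = t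
        · subst hj; exact ⟨1, by simp⟩
        · exact ⟨0, by simp [Pi.single_eq_of_ne hj]⟩
      · exact hint _ (hB i h) j
    choose Z hZ using h1
    refine ⟨(Matrix.of Z).det, ?_⟩
    have h2 : (B.updateRow r0 (Pi.single t 1)) * Matrix.diagonal (fun j => (2 : ℚ) ^ l j) =
        Matrix.diagonal (fun i => if i = r0 then (2 : ℚ) ^ l t else 1) *
          (Matrix.of Z).map (Int.cast : ℤ → ℚ) := by
      ext i j
      rw [Matrix.mul_diagonal, Matrix.diagonal_mul, Matrix.map_apply, Matrix.of_apply, ← hZ]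
      by_cases h : i = r0
      · subst h
        rw [Matrix.updateRow_self, if_pos rfl, if_pos rfl]
        by_cases hj : j = t
        · subst hj; simp
        · simp [Pi.single_eq_of_ne hj]
      · rw [Matrix.updateRow_ne h, if_neg h, if_neg h, one_mul]
    have h3 := congrArg Matrix.det h2
    rw [Matrix.det_mul, Matrix.det_mul, Matrix.det_diagonal, Matrix.det_diagonal,
      Finset.prod_pow_eq_pow_sum, Finset.prod_ite_eq' , if_pos (Finset.mem_univ _)] at h3
    have h4 : ((Matrix.of Z).map (Int.cast : ℤ → ℚ)).det = (((Matrix.of Z).det : ℤ) : ℚ) :=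
      (RingHom.map_det (Int.castRingHom ℚ) (Matrix.of Z)).symm
    rw [h4] at h3
    simp only [D]
    rw [h3]
    push_cast
    ring
  choose I hI using hI
  have h2L : (2 : ℚ) ^ (∑ t, l t) ≠ 0 := by positivity
  refine ⟨I, ?_, ?_, ?_⟩
  · intro h0
    have := hI t1
    rw [h0, hD1] at this
    simp only [mul_zero, Int.cast_zero, mul_eq_zero] at this
    rcases this with h | h
    · exact hdet h
    · exact h2L h
  · intro t
    rw [← hI t1, ← hI t, hD1]
    linear_combination (2 : ℚ) ^ (∑ t, l t) * hcr t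
  · intro t
    have h1 := hadamard_sq (B.updateRow r0 (Pi.single t 1))
    have h2 : ∏ i, ∑ j, (B.updateRow r0 (Pi.single t 1)) i j ^ 2 ≤ 4 ^ (Fintype.card T - 1) := by
      rw [← Finset.mul_prod_erase _ _ (Finset.mem_univ r0)]
      have h3 : ∑ j, (B.updateRow r0 (Pi.single t 1)) r0 j ^ 2 = 1 := by
        rw [Matrix.updateRow_self]
        rw [Finset.sum_eq_single t]
        · simp
        · intro j _ hj
          simp [Pi.single_eq_of_ne hj]
        · simp
      rw [h3, one_mul]
      calc ∏ i ∈ Finset.univ.erase r0, ∑ j, (B.updateRow r0 (Pi.single t 1)) i j ^ 2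
          ≤ ∏ i ∈ Finset.univ.erase r0, (4 : ℚ) := by
            refine Finset.prod_le_prod (fun i _ => Finset.sum_nonneg fun _ _ => sq_nonneg _) ?_
            intro i hi
            rw [Finset.mem_erase] at hi
            rw [Matrix.updateRow_ne hi.1]
            exact hnorm _ (hB i hi.1)
        _ = 4 ^ (Fintype.card T - 1) := by
            rw [Finset.prod_const, Finset.card_erase_of_mem (Finset.mem_univ _), Finset.card_univ]
    have h3 : (D t) ^ 2 ≤ (2 ^ (Fintype.card T - 1)) ^ 2 := by
      refine (h1.trans h2).trans (le_of_eq ?_)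
      rw [← pow_mul, mul_comm, pow_mul]
      norm_num
    have h4 : |D t| ≤ 2 ^ (Fintype.card T - 1) := abs_le_of_sq_le_sq h3 (by positivity)
    have h5 : |((2 ^ l t * I t : ℤ) : ℚ)| ≤ ((2 ^ (∑ t, l t + (Fintype.card T - 1)) : ℤ) : ℚ) := by
      rw [← hI t, abs_mul, abs_of_pos (show (0 : ℚ) < 2 ^ (∑ t, l t) by positivity)]
      push_cast
      rw [pow_add, mul_comm]
      exact mul_le_mul_of_nonneg_left h4 (by positivity)
    exact_mod_cast h5

end Pool.Agent.E8helper57
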