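import Mathlib
import Pool.Agent.E8helper57.Select

set_option autoImplicit false

namespace Pool.Agent.E8helper57

open Finset

namespace Chains

variable (W : Finset ℚ)

/-- number of doublings inside `W` -/
noncomputable def s (v : ℚ) : ℕ := sInf {k : ℕ | 2 ^ (k + 1) * v ∉ W}

variable {W}

lemma s_nonempty {v : ℚ} (hv : v ≠ 0) : {k : ℕ | 2 ^ (k + 1) * v ∉ W}.Nonempty := by
  by_contra h
  rw [Set.not_nonempty_iff_eq_empty] at h
  have h1 : ∀ k : ℕ, 2 ^ (k + 1) * v ∈ W := by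
    intro k
    by_contra hk
    have : k ∈ {k : ℕ | 2 ^ (k + 1) * v ∉ W} := hk
    rw [h] at this
    exact this
  have h2 : Function.Injective (fun k : ℕ => (2 : ℚ) ^ (k + 1) * v) := by
    intro a b hab
    have h3 : (2 : ℚ) ^ (a + 1) = 2 ^ (b + 1) := mul_right_cancel₀ hv hab
    have := pow_right_injective₀ (by norm_num : (0 : ℚ) < 2) (by norm_num) h3
    omega
  have h3 : (Set.range (fun k : ℕ => (2 : ℚ) ^ (k + 1) * v)).Finite :=
    W.finite_toSet.subset (by rintro _ ⟨k, rfl⟩; exact h1 k)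
  exact (Set.infinite_range_of_injective h2) h3

lemma s_not {v : ℚ} (hv : v ≠ 0) : 2 ^ (s W v + 1) * v ∉ W := Nat.sInf_mem (s_nonempty hv)

lemma s_mem {v : ℚ} (hvW : v ∈ W) {k : ℕ} (hk : k ≤ s W v) : 2 ^ k * v ∈ W := by
  rcases Nat.eq_zero_or_pos k with rfl | hpos
  · simpa using hvW
  · obtain ⟨j, rfl⟩ : ∃ j, k = j + 1 := ⟨k - 1, by omega⟩
    by_contra h
    have := Nat.sInf_le (s := {k : ℕ | 2 ^ (k + 1) * v ∉ W}) h
    unfold s at hk
    omega

lemma s_eq {v : ℚ} {n : ℕ} (h0 : v ≠ 0) (_hvW : v ∈ W) (h1 : ∀ k ≤ n, 2 ^ k * v ∈ W)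
    (h2 : 2 ^ (n + 1) * v ∉ W) : s W v = n := by
  apply le_antisymm
  · exact Nat.sInf_le h2
  · by_contra h
    push Not at h
    exact s_not h0 (h1 _ h)

/-- the top of the chain of `v` -/
noncomputable def top (W : Finset ℚ) (v : ℚ) : ℚ := 2 ^ (s W v) * v

lemma top_mem {v : ℚ} (hvW : v ∈ W) : top W v ∈ W := s_mem hvW le_rfl

lemma pow_two_mul (a b : ℕ) (v : ℚ) : (2 : ℚ) ^ a * (2 ^ b * v) = 2 ^ (a + b) * v := by
  rw [pow_add]; ring

lemma s_pow {v : ℚ} (h0 : v ≠ 0) (hvW : v ∈ W) {k : ℕ} (hk : k ≤ s W v) :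
    s W (2 ^ k * v) = s W v - k := by
  apply s_eq (by positivity) (s_mem hvW hk)
  · intro j hj
    rw [pow_two_mul]
    exact s_mem hvW (by omega)
  · rw [pow_two_mul, show s W v - k + 1 + k = s W v + 1 by omega]
    exact s_not h0

lemma top_pow {v : ℚ} (h0 : v ≠ 0) (hvW : v ∈ W) {k : ℕ} (hk : k ≤ s W v) :
    top W (2 ^ k * v) = top W v := by
  unfold top
  rw [s_pow h0 hvW hk, pow_two_mul, Nat.sub_add_cancel hk]

lemma s_top {v : ℚ} (h0 : v ≠ 0) (hvW : v ∈ W) : s W (top W v) = 0 := by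
  unfold top
  rw [s_pow h0 hvW le_rfl, Nat.sub_self]

lemma top_top {v : ℚ} (h0 : v ≠ 0) (hvW : v ∈ W) : top W (top W v) = top W v := by
  have := s_top h0 hvW
  conv_lhs => rw [top, this]
  simp

variable (W)

/-- the set of tops -/
noncomputable def T : Finset ℚ := W.filter (fun v => 2 * v ∉ W)

/-- the length of the chain below a top -/
noncomputable def len (t : ℚ) : ℕ := (W.filter (fun v => top W v = t)).sup (s W)

variable {W}

lemma top_mem_T {v : ℚ} (h0 : v ≠ 0) (hvW : v ∈ W) : top W v ∈ T W := by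
  unfold T
  rw [mem_filter]
  refine ⟨top_mem hvW, ?_⟩
  have := s_not (W := W) h0
  unfold top
  rwa [← mul_assoc, mul_comm (2 : ℚ), ← pow_succ]

lemma s_of_T {t : ℚ} (h0 : t ≠ 0) (ht : t ∈ T W) : s W t = 0 := by
  unfold T at ht
  rw [mem_filter] at ht
  apply s_eq h0 ht.1
  · intro k hk
    obtain rfl : k = 0 := by omega
    simpa using ht.1
  · simpa using ht.2

lemma top_of_T {t : ℚ} (h0 : t ≠ 0) (ht : t ∈ T W) : top W t = t := by
  unfold top
  rw [s_of_T h0 ht]; simp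

lemma s_le_len {v : ℚ} (hvW : v ∈ W) : s W v ≤ len W (top W v) := by
  unfold len
  exact Finset.le_sup (f := s W) (mem_filter.2 ⟨hvW, rfl⟩)

lemma fiber_card (h0 : (0 : ℚ) ∉ W) {t : ℚ} (ht : t ∈ T W) :
    len W t + 1 ≤ (W.filter (fun v => top W v = t)).card := by
  have ht0 : t ≠ 0 := by
    rintro rfl
    unfold T at ht
    rw [mem_filter] at ht
    exact h0 ht.1
  have htW : t ∈ W := by
    unfold T at ht
    exact (mem_filter.1 ht).1
  have hne : (W.filter (fun v => top W v = t)).Nonempty :=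
    ⟨t, mem_filter.2 ⟨htW, top_of_T ht0 ht⟩⟩
  obtain ⟨v, hv, hsv⟩ := Finset.exists_mem_eq_sup _ hne (s W)
  rw [mem_filter] at hv
  have hv0 : v ≠ 0 := fun h => h0 (h ▸ hv.1)
  have h1 : Finset.card (Finset.range (len W t + 1)) ≤ (W.filter (fun v => top W v = t)).card := by
    apply Finset.card_le_card_of_injOn (fun k => 2 ^ k * v)
    · intro k hk
      have hk' : k < len W t + 1 := by simpa using hk
      have hk2 : k ≤ s W v := by
        have : len W t = s W v := hsv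
        omega
      simp only [coe_filter, Set.mem_ofPred_eq]
      exact ⟨s_mem hv.1 hk2, by rw [top_pow hv0 hv.1 hk2, hv.2]⟩
    · intro a _ b _ hab
      have h3 : (2 : ℚ) ^ a = 2 ^ b := mul_right_cancel₀ hv0 hab
      exact pow_right_injective₀ (by norm_num : (0 : ℚ) < 2) (by norm_num) h3
  simpa using h1

lemma card_T (h0 : (0 : ℚ) ∉ W) : ∑ t ∈ T W, (len W t + 1) ≤ W.card := by
  have h1 : W.card = ∑ t ∈ T W, (W.filter (fun v => top W v = t)).card := by
    apply Finset.card_eq_sum_card_fiberwise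
    intro v hv
    have hv' : v ∈ W := hv
    exact top_mem_T (fun h => h0 (h ▸ hv')) hv'
  rw [h1]
  exact Finset.sum_le_sum fun t ht => fiber_card h0 ht

variable (W)

/-- the coordinate vector of `v` -/
noncomputable def rho (v : ℚ) (t : T W) : ℚ :=
  open Classical in if v ∈ W ∧ top W v = t.1 then (1 / 2) ^ (s W v) else 0

variable {W}

lemma rho_nonneg (v : ℚ) (t : T W) : 0 ≤ rho W v t := by
  unfold rho; split_ifs <;> positivity

lemma rho_le (v : ℚ) (t : T W) : rho W v t ≤ 1 := by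
  unfold rho
  split_ifs
  · exact pow_le_one₀ (by norm_num) (by norm_num)
  · norm_num

lemma rho_sum (h0 : (0 : ℚ) ∉ W) {v : ℚ} (hv : v ∈ W) (f : T W → ℚ) :
    ∑ t, rho W v t * f t =
      (1 / 2) ^ (s W v) * f ⟨top W v, top_mem_T (fun h => h0 (h ▸ hv)) hv⟩ := by
  rw [Finset.sum_eq_single ⟨top W v, top_mem_T (fun h => h0 (h ▸ hv)) hv⟩]
  · unfold rho
    rw [if_pos ⟨hv, rfl⟩]
  · intro t _ ht
    unfold rho
    rw [if_neg, zero_mul]
    rintro ⟨_, h⟩
    exact ht (Subtype.ext h.symm)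
  · simp

lemma rho_not {v : ℚ} (hv : v ∉ W) (t : T W) : rho W v t = 0 := by
  unfold rho
  rw [if_neg]
  rintro ⟨h, _⟩
  exact hv h

lemma rho_sq (h0 : (0 : ℚ) ∉ W) (v : ℚ) : ∑ t, rho W v t ^ 2 ≤ 1 := by
  by_cases hv : v ∈ W
  · have : ∀ t, rho W v t ^ 2 = rho W v t * rho W v t := fun t => sq _
    simp_rw [this]
    rw [rho_sum h0 hv]
    have h1 := rho_le v (⟨top W v, top_mem_T (fun h => h0 (h ▸ hv)) hv⟩ : T W)
    have h2 := rho_nonneg v (⟨top W v, top_mem_T (fun h => h0 (h ▸ hv)) hv⟩ : T W)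
    have h3 : (1 / 2 : ℚ) ^ (s W v) ≤ 1 := pow_le_one₀ (by norm_num) (by norm_num)
    have h4 : (0 : ℚ) ≤ (1 / 2 : ℚ) ^ (s W v) := by positivity
    nlinarith
  · simp_rw [rho_not hv]
    simp

lemma norm_bound (h0 : (0 : ℚ) ∉ W) (a b : ℚ) (hab : a ∈ W → b = a → a + b ∈ W) :
    ∑ t, (rho W a t + rho W b t - rho W (a + b) t) ^ 2 ≤ 4 := by
  have key : ∑ t, (rho W a t + rho W b t - rho W (a + b) t) ^ 2 ≤
      ∑ t, rho W a t ^ 2 + ∑ t, rho W b t ^ 2 + ∑ t, rho W (a + b) t ^ 2 +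
        2 * ∑ t, rho W a t * rho W b t := by
    rw [Finset.mul_sum, ← Finset.sum_add_distrib, ← Finset.sum_add_distrib,
      ← Finset.sum_add_distrib]
    refine Finset.sum_le_sum fun t _ => ?_
    have h1 := rho_nonneg a t
    have h2 := rho_nonneg b t
    have h3 := rho_nonneg (a + b) t
    nlinarith [mul_nonneg h1 h3, mul_nonneg h2 h3]
  by_cases hin : a ∈ W ∧ b ∈ W ∧ top W a = top W b
  · obtain ⟨ha, hb, ht⟩ := hin
    have ha0 : a ≠ 0 := fun h => h0 (h ▸ ha)
    have hb0 : b ≠ 0 := fun h => h0 (h ▸ hb)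
    by_cases hba : b = a
    · -- the double
      have hc := hab ha hba
      subst hba
      have h1 : 1 ≤ s W b := by
        by_contra hlt
        have h2 : s W b = 0 := by omega
        have h3 := s_not (W := W) hb0
        rw [h2] at h3
        apply h3
        convert hc using 1
        ring
      have e1 : b + b = 2 ^ 1 * b := by ring
      have h2 := s_pow hb0 hb h1
      have h3 := top_pow hb0 hb h1
      rw [← e1] at h2 h3
      have h4 : ∀ t : T W, rho W b t + rho W b t - rho W (b + b) t = 0 := by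
        intro t
        unfold rho
        rw [h2, h3]
        by_cases htt : top W b = t.1
        · rw [if_pos ⟨hb, htt⟩, if_pos ⟨hc, htt⟩]
          have : (1 / 2 : ℚ) ^ (s W b) = (1 / 2) ^ (s W b - 1) * (1 / 2) := by
            rw [← pow_succ, Nat.sub_add_cancel h1]
          rw [this]; ring
        · rw [if_neg (fun h => htt h.2), if_neg (fun h => htt h.2)]; ring
      simp_rw [h4]
      simp
    · have hs : s W a ≠ s W b := by
        intro h
        unfold top at ht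
        rw [h] at ht
        exact hba (mul_left_cancel₀ (by positivity) ht).symm
      have e1 : ∑ t, rho W a t * rho W b t = (1 / 2) ^ (s W a) * (1 / 2) ^ (s W b) := by
        rw [rho_sum h0 ha]
        unfold rho
        rw [if_pos ⟨hb, ht.symm⟩]
      have e2 : ∑ t, rho W a t ^ 2 = ((1 / 2) ^ (s W a)) ^ 2 := by
        have : ∀ t, rho W a t ^ 2 = rho W a t * rho W a t := fun t => sq _
        simp_rw [this]
        rw [rho_sum h0 ha]
        unfold rho
        rw [if_pos ⟨ha, rfl⟩, sq]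
      have e3 : ∑ t, rho W b t ^ 2 = ((1 / 2) ^ (s W b)) ^ 2 := by
        have : ∀ t, rho W b t ^ 2 = rho W b t * rho W b t := fun t => sq _
        simp_rw [this]
        rw [rho_sum h0 hb]
        unfold rho
        rw [if_pos ⟨hb, rfl⟩, sq]
      have e4 := rho_sq h0 (a + b)
      rw [e1, e2, e3] at key
      refine key.trans ?_
      have h4 : (1 / 2 : ℚ) ^ (s W a) + (1 / 2) ^ (s W b) ≤ 3 / 2 := by
        have aux : ∀ m n : ℕ, m < n → (1 / 2 : ℚ) ^ m + (1 / 2) ^ n ≤ 3 / 2 := by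
          intro m n hmn
          have h5 : (1 / 2 : ℚ) ^ m ≤ 1 := pow_le_one₀ (by norm_num) (by norm_num)
          have h6 : (1 / 2 : ℚ) ^ n ≤ (1 / 2) ^ 1 :=
            pow_le_pow_of_le_one (by norm_num) (by norm_num) (by omega)
          norm_num at h6 ⊢
          norm_num at h5
          linarith
        rcases lt_or_gt_of_ne hs with h | h
        · exact aux _ _ h
        · rw [add_comm]; exact aux _ _ h
      have h5 : (0 : ℚ) ≤ (1 / 2 : ℚ) ^ (s W a) := by positivity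
      have h6 : (0 : ℚ) ≤ (1 / 2 : ℚ) ^ (s W b) := by positivity
      nlinarith
  · have e1 : ∑ t, rho W a t * rho W b t = 0 := by
      refine Finset.sum_eq_zero fun t _ => ?_
      unfold rho
      by_cases h1 : a ∈ W ∧ top W a = t.1
      · by_cases h2 : b ∈ W ∧ top W b = t.1
        · exact absurd ⟨h1.1, h2.1, h1.2.trans h2.2.symm⟩ hin
        · rw [if_neg h2, mul_zero]
      · rw [if_neg h1, zero_mul]
    rw [e1] at key
    have h1 := rho_sq h0 a
    have h2 := rho_sq h0 b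
    have h3 := rho_sq h0 (a + b)
    linarith

lemma rho_int (v : ℚ) (t : T W) : ∃ z : ℤ, rho W v t * 2 ^ len W t.1 = z := by
  unfold rho
  split_ifs with h
  · have h1 : s W v ≤ len W t.1 := by
      rw [← h.2]; exact s_le_len h.1
    refine ⟨2 ^ (len W t.1 - s W v), ?_⟩
    push_cast
    rw [← Nat.sub_add_cancel h1]
    rw [pow_add, Nat.add_sub_cancel]
    have : (1 / 2 : ℚ) ^ s W v * 2 ^ s W v = 1 := by
      rw [← mul_pow]; norm_num
    linear_combination (2 : ℚ) ^ (len W t.1 - s W v) * this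
  · exact ⟨0, by simp⟩

end Chains

open Chains

/-- The main bound, for finite sets of rationals. -/
theorem main_bound (V : Finset ℚ) (h1 : (1 : ℚ) ∈ V)
    (huniq : ∀ z : ℚ → ℚ, z 1 = 1 → (∀ a ∈ V, ∀ b ∈ V, a + b ∈ V → z a + z b = z (a + b)) →
      ∀ v ∈ V, z v = v) :
    ∀ v ∈ V, |v.num| ≤ 2 ^ (V.card - 1) ∧ (v.den : ℤ) ≤ 2 ^ (V.card - 1) := by
  classical
  intro v hv
  by_cases hv0 : v = 0
  · subst hv0
    constructor
    · simp
    · simp only [Rat.den_zero, Nat.cast_one]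
      exact one_le_pow₀ (by norm_num)
  set W : Finset ℚ := V.erase 0 with hW
  have h0 : (0 : ℚ) ∉ W := by simp [hW]
  have hVW : ∀ x ∈ V, x ≠ 0 → x ∈ W := fun x hx hx0 => by
    rw [hW, mem_erase]; exact ⟨hx0, hx⟩
  have hWV : ∀ x ∈ W, x ∈ V := fun x hx => by
    rw [hW, mem_erase] at hx; exact hx.2
  have h1W : (1 : ℚ) ∈ W := hVW 1 h1 one_ne_zero
  have hvW : v ∈ W := hVW v hv hv0
  have hcard : W.card ≤ V.card := Finset.card_le_card (Finset.erase_subset _ _)
  let t1 : T W := ⟨top W 1, top_mem_T one_ne_zero h1W⟩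
  let R : Set (T W → ℚ) := {r | ∃ a ∈ V, ∃ b ∈ V, a + b ∈ V ∧
    r = fun t => rho W a t + rho W b t - rho W (a + b) t}
  have hsum : ∀ x ∈ V, ∑ t : T W, rho W x t * t.1 = x := by
    intro x hx
    by_cases hx0 : x = 0
    · subst hx0
      simp_rw [rho_not h0]
      simp
    · rw [rho_sum h0 (hVW x hx hx0) (fun t => t.1)]
      unfold top
      rw [← mul_assoc, ← mul_pow]
      norm_num
  have hU : ∀ u : T W → ℚ, (∀ r ∈ R, ∑ t, r t * u t = 0) → u t1 = 0 → u = 0 := by
    intro u hu hu1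
    have h2 := huniq (fun x => x + ∑ t, rho W x t * u t)
      (by

        rw [rho_sum h0 h1W]
        change (1 : ℚ) + _ * u t1 = 1
        rw [hu1, mul_zero, add_zero])
      (by
        intro a ha b hb hab
        have h3 := hu _ ⟨a, ha, b, hb, hab, rfl⟩
        have h4 : ∑ t, (rho W a t + rho W b t - rho W (a + b) t) * u t =
            ∑ t, rho W a t * u t + ∑ t, rho W b t * u t - ∑ t, rho W (a + b) t * u t := by
          rw [← Finset.sum_add_distrib, ← Finset.sum_sub_distrib]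
          refine Finset.sum_congr rfl fun t _ => by ring
        rw [h4] at h3
        change a + ∑ t, rho W a t * u t + (b + ∑ t, rho W b t * u t) =
          (a + b) + ∑ t, rho W (a + b) t * u t
        linarith)
    funext t
    have htW : t.1 ∈ W := (mem_filter.1 t.2).1
    have ht0 : t.1 ≠ 0 := fun h => h0 (h ▸ htW)
    have h3 : t.1 + ∑ t', rho W t.1 t' * u t' = t.1 := h2 t.1 (hWV _ htW)
    rw [rho_sum h0 htW] at h3
    have h4 : (⟨top W t.1, top_mem_T (fun h => h0 (h ▸ htW)) htW⟩ : T W) = t :=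
      Subtype.ext (top_of_T ht0 t.2)
    rw [h4, s_of_T ht0 t.2, pow_zero, one_mul] at h3
    simpa using h3
  have hw : ∀ r ∈ R, ∑ t, r t * t.1 = 0 := by
    rintro r ⟨a, ha, b, hb, hab, rfl⟩
    have h4 : ∑ t : T W, (rho W a t + rho W b t - rho W (a + b) t) * t.1 =
        ∑ t : T W, rho W a t * t.1 + ∑ t : T W, rho W b t * t.1 -
          ∑ t : T W, rho W (a + b) t * t.1 := by
      rw [← Finset.sum_add_distrib, ← Finset.sum_sub_distrib]
      refine Finset.sum_congr rfl fun t _ => by ring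
    rw [h4, hsum a ha, hsum b hb, hsum _ hab]
    ring
  have hnorm : ∀ r ∈ R, ∑ t, r t ^ 2 ≤ 4 := by
    rintro r ⟨a, ha, b, hb, hab, rfl⟩
    apply norm_bound h0
    intro haW hba
    apply hVW _ hab
    rw [hba]
    intro h
    have : a = 0 := by linarith
    exact h0 (this ▸ haW)
  have hint : ∀ r ∈ R, ∀ t, ∃ z : ℤ, r t * 2 ^ (len W t.1) = z := by
    rintro r ⟨a, ha, b, hb, hab, rfl⟩ t
    obtain ⟨z1, hz1⟩ := rho_int a t
    obtain ⟨z2, hz2⟩ := rho_int b t
    obtain ⟨z3, hz3⟩ := rho_int (a + b) t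
    refine ⟨z1 + z2 - z3, ?_⟩
    push_cast
    rw [← hz1, ← hz2, ← hz3]
    ring
  obtain ⟨I, hI1, hI2, hI3⟩ := bound R t1 hU (fun t => t.1) hw hnorm (fun t => len W t.1) hint
  have hexp : ∑ t : T W, len W t.1 + (Fintype.card (T W) - 1) ≤ V.card - 1 := by
    have h3 := card_T h0
    rw [Finset.sum_add_distrib] at h3
    simp only [sum_const, smul_eq_mul, mul_one] at h3
    have h4 : ∑ t : T W, len W t.1 = ∑ t ∈ T W, len W t :=
      Finset.sum_coe_sort (T W) (len W)
    have h5 : Fintype.card (T W) = (T W).card := Fintype.card_coe _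
    have h6 : 0 < (T W).card := Finset.card_pos.2 ⟨_, t1.2⟩
    rw [h4, h5]
    omega
  let t : T W := ⟨top W v, top_mem_T hv0 hvW⟩
  have hs1 : s W 1 ≤ len W (top W 1) := s_le_len h1W
  have hsv : s W v ≤ len W (top W v) := s_le_len hvW
  have hI2t := hI2 t
  simp only [t, t1] at hI2t hI1
  -- numerator and denominator
  set P : ℤ := 2 ^ (len W (top W v) - s W v) * I ⟨top W v, top_mem_T hv0 hvW⟩ with hP
  set Q : ℤ := 2 ^ (len W (top W 1) - s W 1) * I ⟨top W 1, top_mem_T one_ne_zero h1W⟩ with hQ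
  have hQ0 : Q ≠ 0 := mul_ne_zero (by positivity) hI1
  have hPQ : (Q : ℚ) * v = P := by
    have e1 : (2 : ℚ) ^ (len W (top W 1)) = 2 ^ (len W (top W 1) - s W 1) * 2 ^ s W 1 := by
      rw [← pow_add, Nat.sub_add_cancel hs1]
    have e2 : (2 : ℚ) ^ (len W (top W v)) = 2 ^ (len W (top W v) - s W v) * 2 ^ s W v := by
      rw [← pow_add, Nat.sub_add_cancel hsv]
    push_cast at hI2t
    rw [e1, e2] at hI2t
    have e3 : top W v = 2 ^ s W v * v := rfl
    have e4 : top W 1 = 2 ^ s W 1 * 1 := rfl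
    have h7 : ((2 : ℚ) ^ s W 1 * 2 ^ s W v) * ((Q : ℚ) * v) = ((2 : ℚ) ^ s W 1 * 2 ^ s W v) * P := by
      rw [hP, hQ]
      push_cast
      calc (2 : ℚ) ^ s W 1 * 2 ^ s W v * (2 ^ (len W (top W 1) - s W 1) *
            (I ⟨top W 1, top_mem_T one_ne_zero h1W⟩ : ℚ) * v)
          = 2 ^ (len W (top W 1) - s W 1) * 2 ^ s W 1 *
            (I ⟨top W 1, top_mem_T one_ne_zero h1W⟩ : ℚ) * (2 ^ s W v * v) := by ring
        _ = 2 ^ (len W (top W 1) - s W 1) * 2 ^ s W 1 *
            (I ⟨top W 1, top_mem_T one_ne_zero h1W⟩ : ℚ) * top W v := by rw [e3]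
        _ = top W 1 * (2 ^ (len W (top W v) - s W v) * 2 ^ s W v *
            (I ⟨top W v, top_mem_T hv0 hvW⟩ : ℚ)) := hI2t
        _ = _ := by
          conv_lhs => rw [e4]
          ring
    exact mul_left_cancel₀ (by positivity) h7
  have hbd : ∀ (x : ℚ) (hx0 : x ≠ 0) (hx : x ∈ W),
      |(2 : ℤ) ^ (len W (top W x) - s W x) * I ⟨top W x, top_mem_T hx0 hx⟩| ≤
        2 ^ (V.card - 1) := by
    intro x hx0 hx
    have h3 := hI3 ⟨top W x, top_mem_T hx0 hx⟩
    simp only at h3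
    rw [abs_mul] at h3 ⊢
    have h4 : |(2 : ℤ) ^ (len W (top W x) - s W x)| ≤ |(2 : ℤ) ^ (len W (top W x))| := by
      rw [abs_of_pos (by positivity), abs_of_pos (by positivity)]
      exact pow_le_pow_right₀ (by norm_num) (Nat.sub_le _ _)
    refine (mul_le_mul_of_nonneg_right h4 (abs_nonneg _)).trans (h3.trans ?_)
    exact pow_le_pow_right₀ (by norm_num) hexp
  have hPb : |P| ≤ 2 ^ (V.card - 1) := hbd v hv0 hvW
  have hQb : |Q| ≤ 2 ^ (V.card - 1) := hbd 1 one_ne_zero h1W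
  have hveq : v = (P : ℚ) / (Q : ℚ) := by
    rw [eq_div_iff (by exact_mod_cast hQ0), mul_comm]
    exact hPQ
  have hP0 : P ≠ 0 := by
    intro h
    rw [h] at hveq
    simp at hveq
    exact hv0 hveq
  constructor
  · have h3 : v.num ∣ P := by
      rw [hveq, ← Rat.divInt_eq_div]; exact Rat.num_dvd P hQ0
    exact (Int.le_of_dvd (abs_pos.2 hP0) ((abs_dvd_abs _ _).2 h3)).trans hPb
  · have h3 : (v.den : ℤ) ∣ Q := by
      rw [hveq, ← Rat.divInt_eq_div]; exact Rat.den_dvd P Q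
    have h4 : (v.den : ℤ) ∣ |Q| := (dvd_abs _ _).2 h3
    exact (Int.le_of_dvd (abs_pos.2 hQ0) h4).trans hQb

end Pool.Agent.E8helper57
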