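import Mathlib
import Pool.Agent.E8helper57.BlockDefs

/-!
# Representations of `SL(2, F)` and vectors fixed by the upper unitriangular subgroup
-/

set_option autoImplicit false

open Matrix
open scoped MatrixGroups

namespace Pool.Agent.E8helper57.Unitri

section group

variable {F : Type} [Field F]

/-- upper unitriangular element -/
def uu (x : F) : SL(2, F) := ⟨!![1, x; 0, 1], by simp [Matrix.det_fin_two_of]⟩

/-- lower unitriangular element -/
def um (x : F) : SL(2, F) := ⟨!![1, 0; x, 1], by simp [Matrix.det_fin_two_of]⟩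

/-- Weyl element -/
def ww : SL(2, F) := ⟨!![0, -1; 1, 0], by simp [Matrix.det_fin_two_of]⟩

/-- diagonal element -/
def tt (a : Fˣ) : SL(2, F) := ⟨!![(a : F), 0; 0, (a : F)⁻¹], by simp [Matrix.det_fin_two_of]⟩

@[simp] lemma uu_coe (x : F) : ((uu x : SL(2, F)) : Matrix (Fin 2) (Fin 2) F) = !![1, x; 0, 1] := rfl

@[simp] lemma um_coe (x : F) : ((um x : SL(2, F)) : Matrix (Fin 2) (Fin 2) F) = !![1, 0; x, 1] := rfl

@[simp] lemma ww_coe : ((ww : SL(2, F)) : Matrix (Fin 2) (Fin 2) F) = !![0, -1; 1, 0] := rfl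

@[simp] lemma tt_coe (a : Fˣ) :
    ((tt a : SL(2, F)) : Matrix (Fin 2) (Fin 2) F) = !![(a : F), 0; 0, (a : F)⁻¹] := rfl

lemma uu_zero : (uu 0 : SL(2, F)) = 1 := by
  ext i j; fin_cases i <;> fin_cases j <;> simp

lemma uu_add (x y : F) : uu (x + y) = uu x * uu y := by
  ext i j; fin_cases i <;> fin_cases j <;> simp [add_comm]

lemma um_add (x y : F) : um (x + y) = um x * um y := by
  ext i j; fin_cases i <;> fin_cases j <;> simp

lemma tt_one : (tt 1 : SL(2, F)) = 1 := by
  ext i j; fin_cases i <;> fin_cases j <;> simp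

lemma tt_mul (a b : Fˣ) : tt (a * b) = tt a * tt b := by
  ext i j; fin_cases i <;> fin_cases j <;> simp [mul_comm]

lemma tt_pow (a : Fˣ) (n : ℕ) : tt (a ^ n) = tt a ^ n := by
  induction n with
  | zero => simp [tt_one]
  | succ n ih => rw [pow_succ, tt_mul, ih, pow_succ]

lemma tt_mul_uu (a : Fˣ) (x : F) : tt a * uu x = uu ((a : F) ^ 2 * x) * tt a := by
  have ha := a.ne_zero
  ext i j; fin_cases i <;> fin_cases j <;> simp
  field_simp

lemma tt_mul_ww (a : Fˣ) : tt a * ww = ww * tt a⁻¹ := by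
  ext i j; fin_cases i <;> fin_cases j <;> simp

lemma uu_mul_ww (x y : F) : uu x * ww = uu y * ww * um (y - x) := by
  ext i j; fin_cases i <;> fin_cases j <;> simp

lemma decomp (g : SL(2, F)) (c : Fˣ) (hc : g 1 0 = c) :
    g = uu (g 0 0 / c) * ww * tt c * uu (g 1 1 / c) := by
  have hdet : g 0 0 * g 1 1 - g 0 1 * g 1 0 = 1 := by
    have := g.det_coe
    rwa [Matrix.det_fin_two] at this
  have hc0 := c.ne_zero
  rw [hc] at hdet
  ext i j; fin_cases i <;> fin_cases j
  · simp
  · simp
    field_simp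
    linear_combination -hdet
  · simp [hc]
  · simp
    field_simp

lemma decomp' (g : SL(2, F)) (hc : g 1 0 = 0) : ∃ a : Fˣ, g = tt a * uu (g 0 1 / a) := by
  have hdet : g 0 0 * g 1 1 - g 0 1 * g 1 0 = 1 := by
    have := g.det_coe
    rwa [Matrix.det_fin_two] at this
  rw [hc, mul_zero, sub_zero] at hdet
  have h0 : g 0 0 ≠ 0 := left_ne_zero_of_mul_eq_one hdet
  refine ⟨Units.mk0 _ h0, ?_⟩
  ext i j; fin_cases i <;> fin_cases j
  · simp
  · simp
    field_simp
  · simp [hc]
  · simp
    field_simp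
    linear_combination hdet

end group

section rep

variable {F : Type} [Field F] {K : Type} [Field K] {V : Type} [AddCommGroup V] [Module K V]
  (ρ : Representation K SL(2, F) V)

lemma apply_of_ne {v : V} (hv : ∀ x, ρ (uu x) v = v) {f : Module.Dual K V}
    (hf : ∀ x m, f (ρ (uu x) m) = f m) {θ : Fˣ → K} (hθ : ∀ a, ρ (tt a) v = θ a • v)
    (g : SL(2, F)) (c : Fˣ) (hc : g 1 0 = c) : f (ρ g v) = θ c * f (ρ ww v) := by
  rw [decomp g c hc]
  simp only [map_mul, Module.End.mul_apply, hv, hf, hθ, map_smul, smul_eq_mul]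

lemma apply_of_eq {v : V} (hv : ∀ x, ρ (uu x) v = v) {θ : Fˣ → K} (hθ : ∀ a, ρ (tt a) v = θ a • v)
    (g : SL(2, F)) (hc : g 1 0 = 0) : ∃ a : Fˣ, ρ g v = θ a • v := by
  obtain ⟨a, ha⟩ := decomp' g hc
  refine ⟨a, ?_⟩
  rw [ha]
  simp only [map_mul, Module.End.mul_apply, hv, hθ]

lemma linIndep {v : V} (hv : ∀ x, ρ (uu x) v = v) {f : Module.Dual K V}
    (hf : ∀ x m, f (ρ (uu x) m) = f m) {θ : Fˣ → K} (hθ : ∀ a, ρ (tt a) v = θ a • v)
    (hfv : f v ≠ 0) (hw : f (ρ ww v) = 0) :
    LinearIndependent K (fun x : F => ρ (uu x * ww) v) := by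
  classical
  rw [linearIndependent_iff']
  intro s g hs y hy
  have h1 : ∀ x, f (ρ ((uu y * ww)⁻¹) (ρ (uu x * ww) v)) = if x = y then f v else 0 := by
    intro x
    have h2 : (uu y * ww)⁻¹ * (uu x * ww) = um (y - x) := by
      rw [uu_mul_ww x y]; group
    rw [← Module.End.mul_apply, ← map_mul, h2]
    split_ifs with h
    · subst h
      have : (um (x - x) : SL(2, F)) = 1 := by
        ext i j; fin_cases i <;> fin_cases j <;> simp
      rw [this, map_one, Module.End.one_apply]
    · have h3 : y - x ≠ 0 := sub_ne_zero.mpr (Ne.symm h)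
      rw [apply_of_ne ρ hv hf hθ (um (y - x)) (Units.mk0 _ h3) (by simp), hw, mul_zero]
  have h4 := congrArg (fun m => f (ρ ((uu y * ww)⁻¹) m)) hs
  simp only [map_sum, map_smul, h1, map_zero, smul_eq_mul, mul_ite, mul_zero] at h4
  rw [Finset.sum_ite_eq' s y] at h4
  simp only [hy, if_true] at h4
  exact (mul_eq_zero.mp h4).resolve_right hfv

/-- weights -/
lemma fw_zero {v : V} {f : Module.Dual K V} {θ μ : Fˣ → K} (hθ : ∀ a, ρ (tt a) v = θ a • v)
    (hμ : ∀ a m, f (ρ (tt a) m) = μ a * f m) (a : Fˣ) (ha : μ a ≠ θ a⁻¹) :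
    f (ρ ww v) = 0 := by
  have h1 : f (ρ (tt a * ww) v) = μ a * f (ρ ww v) := by
    rw [map_mul, Module.End.mul_apply, hμ]
  have h2 : f (ρ (tt a * ww) v) = θ a⁻¹ * f (ρ ww v) := by
    rw [tt_mul_ww, map_mul, Module.End.mul_apply, hθ, map_smul, map_smul, smul_eq_mul]
  have h3 : (μ a - θ a⁻¹) * f (ρ ww v) = 0 := by rw [sub_mul, ← h1, ← h2, sub_self]
  exact (mul_eq_zero.mp h3).resolve_left (sub_ne_zero.mpr ha)

/-- Existence of a fixed vector which is a weight vector. -/
lemma exists_weight [IsAlgClosed K] [FiniteDimensional K V] (v₀ : V) (hv₀ : v₀ ≠ 0)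
    (hv₀' : ∀ x, ρ (uu x) v₀ = v₀) (a : Fˣ) :
    ∃ (v : V) (c : K), v ≠ 0 ∧ (∀ x, ρ (uu x) v = v) ∧ ρ (tt a) v = c • v := by
  let S : Submodule K V :=
    { carrier := {v | ∀ x, ρ (uu x) v = v}
      add_mem' := by intro u w hu hw x; simp [hu x, hw x]
      zero_mem' := by intro x; simp
      smul_mem' := by intro c u hu x; simp [hu x] }
  have hS : ∀ v ∈ S, ρ (tt a) v ∈ S := by
    intro v hv x
    have h1 : uu x * tt a = tt a * uu (x / (a : F) ^ 2) := by
      rw [tt_mul_uu]
      congr 2
      have := a.ne_zero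
      field_simp
    rw [← Module.End.mul_apply, ← map_mul, h1, map_mul, Module.End.mul_apply, hv]
  have : Nontrivial S := ⟨⟨⟨v₀, hv₀'⟩, 0, fun h => hv₀ (congrArg Subtype.val h)⟩⟩
  obtain ⟨c, hc⟩ := Module.End.exists_eigenvalue ((ρ (tt a)).restrict hS)
  obtain ⟨v, hv⟩ := hc.exists_hasEigenvector
  refine ⟨v.1, c, fun h => hv.2 (Subtype.ext h), v.2, ?_⟩
  have := hv.apply_eq_smul
  exact congrArg Subtype.val this

/-- In characteristic three there is a fixed vector. -/
lemma exists_fixed [Nontrivial V] (hK : (3 : K) = 0) (hF : (3 : F) = 0) [Finite F] :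
    ∃ v : V, v ≠ 0 ∧ ∀ x : F, ρ (uu x) v = v := by
  classical
  have := Fintype.ofFinite F
  have key : ∀ s : Finset F, ∃ v : V, v ≠ 0 ∧ ∀ x ∈ s, ρ (uu x) v = v := by
    intro s
    induction s using Finset.induction with
    | empty =>
      obtain ⟨v, hv⟩ := exists_ne (0 : V)
      exact ⟨v, hv, by simp⟩
    | insert y s hy ih =>
      obtain ⟨v, hv, hvs⟩ := ih
      let N : V →ₗ[K] V := ρ (uu y) - LinearMap.id
      have hN : ∀ w : V, (∀ x ∈ s, ρ (uu x) w = w) → ∀ x ∈ s, ρ (uu x) (N w) = N w := by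
        intro w hw x hx
        have : uu x * uu y = uu y * uu x := by rw [← uu_add, ← uu_add, add_comm]
        simp only [N, LinearMap.sub_apply, LinearMap.id_apply, map_sub]
        rw [← Module.End.mul_apply, ← map_mul, this, map_mul, Module.End.mul_apply, hw x hx]
      have h3 : N (N (N v)) = 0 := by
        have h4 : ρ (uu y) (ρ (uu y) (ρ (uu y) v)) = v := by
          rw [← Module.End.mul_apply, ← Module.End.mul_apply, ← map_mul, ← map_mul, ← uu_add,
            ← uu_add]
          have : y + (y) + y = 3 * y := by ring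
          rw [show y + y + y = 3 * y by ring, hF, zero_mul, uu_zero, map_one]
          rfl
        simp only [N, LinearMap.sub_apply, LinearMap.id_apply, map_sub]
        rw [h4]
        have h5 : (3 : K) • (ρ (uu y) v) - (3 : K) • (ρ (uu y) (ρ (uu y) v)) = 0 := by
          rw [hK]; simp
        rw [← h5]
        module
      by_cases h1 : N v = 0
      · refine ⟨v, hv, ?_⟩
        intro x hx
        rcases Finset.mem_insert.mp hx with rfl | hx
        · exact sub_eq_zero.mp h1
        · exact hvs x hx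
      · by_cases h2 : N (N v) = 0
        · refine ⟨N v, h1, ?_⟩
          intro x hx
          rcases Finset.mem_insert.mp hx with rfl | hx
          · exact sub_eq_zero.mp h2
          · exact hN v hvs x hx
        · refine ⟨N (N v), h2, ?_⟩
          intro x hx
          rcases Finset.mem_insert.mp hx with rfl | hx
          · exact sub_eq_zero.mp h3
          · exact hN _ (hN v hvs) x hx
  obtain ⟨v, hv, h⟩ := key Finset.univ
  exact ⟨v, hv, fun x => h x (Finset.mem_univ x)⟩

/-- irreducibility in terms of stable submodules -/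
lemma irr_cases {G : Type} [Group G] {ρ : Representation K G V} (h : ρ.IsIrreducible)
    (S : Submodule K V) (hS : ∀ g, ∀ v ∈ S, ρ g v ∈ S) : S = ⊥ ∨ S = ⊤ := by
  have h1 : ∀ T : Subrepresentation ρ, T = ⊥ ∨ T = ⊤ := h.eq_bot_or_eq_top
  rcases h1 ⟨S, fun g v hv => hS g v hv⟩ with h2 | h2
  · left
    exact congrArg Subrepresentation.toSubmodule h2
  · right
    exact congrArg Subrepresentation.toSubmodule h2

lemma irr_nontrivial {G : Type} [Group G] {ρ : Representation K G V} (h : ρ.IsIrreducible) :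
    Nontrivial V := by
  by_contra hV
  rw [not_nontrivial_iff_subsingleton] at hV
  have h1 : (⊥ : Subrepresentation ρ) ≠ ⊤ := h.toNontrivial.1.elim (fun a hb => by
    obtain ⟨b, hb⟩ := hb
    exact fun _ => hb (Subrepresentation.toSubmodule_injective (Subsingleton.elim _ _)))
  exact h1 (Subrepresentation.toSubmodule_injective (Subsingleton.elim _ _))

/-- For an irreducible representation a nonzero functional does not vanish on an orbit. -/
lemma irr_functional {G : Type} [Group G] {ρ : Representation K G V} (h : ρ.IsIrreducible)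
    {f : Module.Dual K V} (hf : f ≠ 0) {v : V} (hv : ∀ g, f (ρ g v) = 0) : v = 0 := by
  let S : Submodule K V :=
    { carrier := {v | ∀ g, f (ρ g v) = 0}
      add_mem' := by intro u w hu hw x; simp [hu x, hw x]
      zero_mem' := by intro x; simp
      smul_mem' := by intro c u hu x; simp [hu x] }
  rcases irr_cases h S (by
    intro g v hv g'
    rw [← Module.End.mul_apply, ← map_mul]
    exact hv _) with h1 | h1
  · have : v ∈ S := hv
    rw [h1] at this
    simpa using this
  · exfalso
    apply hf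
    ext m
    have : m ∈ S := by rw [h1]; trivial
    have := this 1
    simpa using this

end rep

end Pool.Agent.E8helper57.Unitri
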