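import Mathlib
import Pool.Agent.E8helper57.UnitriSL2

/-!
# Dimensions of the faithful irreducible representations of `SL(2, 9)`
-/

set_option autoImplicit false

open Matrix
open scoped MatrixGroups

namespace Pool.Agent.E8helper57.Unitri

section gen

variable {F : Type} [Field F] {K : Type} [Field K] {V : Type} [AddCommGroup V] [Module K V]
  (ρ : Representation K SL(2, F) V)

lemma theta_mul {v : V} (hv0 : v ≠ 0) {θ : Fˣ → K} (hθ : ∀ a, ρ (tt a) v = θ a • v) (a b : Fˣ) :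
    θ (a * b) = θ a * θ b := by
  have h : θ (a * b) • v = (θ a * θ b) • v := by
    rw [← hθ, tt_mul, map_mul, Module.End.mul_apply, hθ, map_smul, hθ, smul_smul, mul_comm]
  exact smul_left_injective K hv0 h

lemma theta_one {v : V} (hv0 : v ≠ 0) {θ : Fˣ → K} (hθ : ∀ a, ρ (tt a) v = θ a • v) :
    θ 1 = 1 := by
  have h : θ 1 • v = (1 : K) • v := by
    rw [← hθ, tt_one, map_one, one_smul]; rfl
  exact smul_left_injective K hv0 h

lemma theta_pow {v : V} (hv0 : v ≠ 0) {θ : Fˣ → K} (hθ : ∀ a, ρ (tt a) v = θ a • v) (a : Fˣ)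
    (n : ℕ) : θ (a ^ n) = θ a ^ n := by
  induction n with
  | zero => simp [theta_one ρ hv0 hθ]
  | succ n ih => rw [pow_succ, theta_mul ρ hv0 hθ, ih, pow_succ]

lemma exists_theta {g₀ : Fˣ} (hg : ∀ a : Fˣ, ∃ k : ℕ, g₀ ^ k = a) {v : V} {c : K}
    (hc : ρ (tt g₀) v = c • v) : ∃ θ : Fˣ → K, ∀ a, ρ (tt a) v = θ a • v := by
  have h1 : ∀ k : ℕ, ρ (tt (g₀ ^ k)) v = c ^ k • v := by
    intro k
    induction k with
    | zero => simp [tt_one]
    | succ k ih =>
      rw [pow_succ, tt_mul, map_mul, Module.End.mul_apply, hc, map_smul, ih, smul_smul, pow_succ,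
        mul_comm]
  choose k hk using hg
  exact ⟨fun a => c ^ k a, fun a => by rw [← h1, hk]⟩

/-- the sum over the upper unitriangular group of the translates of `ww • v` -/
noncomputable def vsum [Fintype F] (v : V) : V := ∑ x : F, ρ (uu x * ww) v

lemma vsum_fixed [Fintype F] (v : V) (y : F) : ρ (uu y) (vsum ρ v) = vsum ρ v := by
  unfold vsum
  rw [map_sum]
  refine Fintype.sum_equiv (Equiv.addLeft y) _ _ ?_
  intro x
  rw [← Module.End.mul_apply, ← map_mul, ← mul_assoc, ← uu_add]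
  rfl

lemma vsum_weight [Fintype F] (v : V) {θ : Fˣ → K} (hθ : ∀ a, ρ (tt a) v = θ a • v) (a : Fˣ) :
    ρ (tt a) (vsum ρ v) = θ a⁻¹ • vsum ρ v := by
  unfold vsum
  rw [map_sum, Finset.smul_sum]
  refine Fintype.sum_equiv (Equiv.mulLeft₀ ((a : F) ^ 2) (by have := a.ne_zero; positivity)) _ _ ?_
  intro x
  rw [← Module.End.mul_apply, ← map_mul, ← mul_assoc, tt_mul_uu, mul_assoc, tt_mul_ww, ← mul_assoc,
    map_mul, Module.End.mul_apply, hθ, map_smul]
  rfl

lemma vsum_apply [Fintype F] {v : V} {f : Module.Dual K V} (hf : ∀ x m, f (ρ (uu x) m) = f m) :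
    f (vsum ρ v) = (Fintype.card F : K) * f (ρ ww v) := by
  unfold vsum
  rw [map_sum]
  simp only [map_mul, Module.End.mul_apply, hf]
  simp

/-- Lower bound for the dimension in the presence of a suitable functional. -/
lemma big [Fintype F] [FiniteDimensional K V] (h2 : (2 : K) ≠ 0) {g₀ : Fˣ} (hg4 : g₀ ^ 4 = -1)
    {v : V} (hv0 : v ≠ 0) (hv : ∀ x, ρ (uu x) v = v) {f : Module.Dual K V}
    (hf : ∀ x m, f (ρ (uu x) m) = f m) {θ μ : Fˣ → K} (hθ : ∀ a, ρ (tt a) v = θ a • v)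
    (hμ : ∀ a m, f (ρ (tt a) m) = μ a * f m) (hz : ρ (tt (-1)) v = - v) (hfv : f v ≠ 0) :
    LinearIndependent K (fun x : F => ρ (uu x * ww) v) ∧ f (ρ ww v) = 0 := by
  have h1 : ∀ a, μ a = θ a := by
    intro a
    have h := hμ a v
    rw [hθ, map_smul, smul_eq_mul] at h
    exact (mul_right_cancel₀ hfv h).symm
  have h3 : θ g₀ ≠ θ g₀⁻¹ := by
    intro h
    have h4 : θ g₀ * θ g₀⁻¹ = 1 := by
      rw [← theta_mul ρ hv0 hθ, mul_inv_cancel, theta_one ρ hv0 hθ]
    rw [← h, ← pow_two] at h4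
    have h5 : θ g₀ ^ 4 = -1 := by
      rw [← theta_pow ρ hv0 hθ, hg4]
      have h6 : θ (-1) • v = (-1 : K) • v := by rw [← hθ, hz]; simp
      exact smul_left_injective K hv0 h6
    have h7 : (2 : K) = 0 := by
      have : θ g₀ ^ 4 = (θ g₀ ^ 2) ^ 2 := by ring
      rw [this, h4] at h5
      linear_combination h5
    exact h2 h7
  have h8 : f (ρ ww v) = 0 := fw_zero ρ hθ hμ g₀ (by rw [h1]; exact h3)
  exact ⟨linIndep ρ hv hf hθ hfv h8, h8⟩

end gen

section dual

variable {F : Type} [Field F] {K : Type} [Field K] {V : Type} [AddCommGroup V] [Module K V]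
  (ρ : Representation K SL(2, F) V)

lemma dual_fixed {f : Module.Dual K V} (hf : ∀ x, ρ.dual (uu x) f = f) :
    ∀ x m, f (ρ (uu x) m) = f m := by
  intro x m
  have h := LinearMap.congr_fun (hf x) (ρ (uu x) m)
  rw [← h]
  rw [Representation.dual_apply]
  simp only [Module.Dual.transpose_apply, LinearMap.comp_apply]
  rw [← Module.End.mul_apply, ← map_mul]
  simp

lemma dual_weight {f : Module.Dual K V} {θ : Fˣ → K} (hf : ∀ a, ρ.dual (tt a) f = θ a • f) :
    ∀ a m, f (ρ (tt a) m) = θ a⁻¹ * f m := by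
  intro a m
  have h := LinearMap.congr_fun (hf a⁻¹) m
  rw [Representation.dual_apply] at h
  simp only [Module.Dual.transpose_apply, LinearMap.comp_apply, LinearMap.smul_apply,
    smul_eq_mul] at h
  rw [← h]
  congr 3
  rw [← mul_eq_one_iff_eq_inv, ← tt_mul]
  simp [tt_one]

end dual

end Pool.Agent.E8helper57.Unitri
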