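import Mathlib
import Pool.Agent.E8helper57.UnitriDim

/-!
# Faithful irreducible representations of `SL(2, 9)` in characteristic three
-/

set_option autoImplicit false

open Matrix
open scoped MatrixGroups

namespace Pool.Agent.E8helper57.Unitri

section modular

variable {F : Type} [Field F] {K : Type} [Field K] {V : Type} [AddCommGroup V] [Module K V]
  (ρ : Representation K SL(2, F) V)

/-- matrix coefficient of a highest weight vector -/
lemma coeff {v : V} (hv : ∀ x, ρ (uu x) v = v) {f : Module.Dual K V}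
    (hf : ∀ x m, f (ρ (uu x) m) = f m) (ι : F →+* K) {j : ℕ} (hj : 0 < j)
    (hθ : ∀ a : Fˣ, ρ (tt a) v = (ι a) ^ j • v) (hfv : f v = 0) (g : SL(2, F)) :
    f (ρ g v) = (ι (g 1 0)) ^ j * f (ρ ww v) := by
  by_cases h : g 1 0 = 0
  · obtain ⟨a, ha⟩ := apply_of_eq ρ hv (θ := fun a => (ι a) ^ j) hθ g h
    rw [ha, map_smul, hfv, h]
    simp [hj.ne']
  · rw [apply_of_ne ρ hv hf (θ := fun a => (ι a) ^ j) hθ g (Units.mk0 _ h) rfl]
    rfl

lemma coeff_ne {v : V} (hρ : ρ.IsIrreducible) (hv0 : v ≠ 0) (hv : ∀ x, ρ (uu x) v = v)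
    {f : Module.Dual K V} (hf0 : f ≠ 0)
    (hf : ∀ x m, f (ρ (uu x) m) = f m) (ι : F →+* K) {j : ℕ} (hj : 0 < j)
    (hθ : ∀ a : Fˣ, ρ (tt a) v = (ι a) ^ j • v) (hfv : f v = 0) : f (ρ ww v) ≠ 0 := by
  intro h
  refine hv0 (irr_functional hρ hf0 ?_)
  intro g
  rw [coeff ρ hv hf ι hj hθ hfv, h, mul_zero]

lemma mul_entry (g g' : SL(2, F)) : (g * g') 1 0 = g 1 0 * g' 0 0 + g 1 1 * g' 1 0 := by
  have h := congrFun (congrFun (Matrix.SpecialLinearGroup.coe_mul g g') 1) 0
  rw [Matrix.mul_apply, Fin.sum_univ_two] at h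
  exact h

lemma upper [FiniteDimensional K V] {v : V} (hρ : ρ.IsIrreducible) (hv0 : v ≠ 0)
    (hv : ∀ x, ρ (uu x) v = v) {f : Module.Dual K V} (hf0 : f ≠ 0)
    (hf : ∀ x m, f (ρ (uu x) m) = f m) (ι : F →+* K) {j : ℕ} (hj : 0 < j)
    (hθ : ∀ a : Fˣ, ρ (tt a) v = (ι a) ^ j • v) (hfv : f v = 0) (S : Finset ℕ)
    (hS : ∀ i ∈ Finset.range (j + 1), i ∉ S → ((j.choose i : ℕ) : K) = 0) :
    Module.finrank K V ≤ S.card := by
  classical
  let Ψ : V →ₗ[K] (SL(2, F) → K) := LinearMap.pi (fun g => f ∘ₗ ρ g)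
  have hΨ : ∀ m g, Ψ m g = f (ρ g m) := fun m g => rfl
  have hinj : Function.Injective Ψ := by
    rw [← LinearMap.ker_eq_bot, LinearMap.ker_eq_bot']
    intro m hm
    refine irr_functional hρ hf0 (fun g => ?_)
    rw [← hΨ, hm]; rfl
  let mono : ℕ → (SL(2, F) → K) := fun i g => (ι (g 1 0)) ^ i * (ι (g 1 1)) ^ (j - i)
  let M : Submodule K (SL(2, F) → K) := Submodule.span K ((S.image mono : Finset _) : Set _)
  have hmono : ∀ i ∈ S, mono i ∈ M := fun i hi => Submodule.subset_span (by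
    simp only [Finset.coe_image, Set.mem_image, Finset.mem_coe]
    exact ⟨i, hi, rfl⟩)
  -- the images of the translates of `v`
  have h1 : ∀ g' : SL(2, F), Ψ (ρ g' v) ∈ M := by
    intro g'
    have h2 : Ψ (ρ g' v) = ∑ i ∈ Finset.range (j + 1),
        ((j.choose i : ℕ) : K) • ((ι (g' 0 0)) ^ i * (ι (g' 1 0)) ^ (j - i) * f (ρ ww v)) • mono i := by
      funext g
      rw [hΨ, ← Module.End.mul_apply, ← map_mul, coeff ρ hv hf ι hj hθ hfv]
      rw [mul_entry, map_add, map_mul, map_mul, add_pow, Finset.sum_mul, Finset.sum_apply]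
      refine Finset.sum_congr rfl (fun i _ => ?_)
      simp only [Pi.smul_apply, smul_eq_mul, mono]
      ring
    rw [h2]
    refine Submodule.sum_mem _ (fun i hi => ?_)
    by_cases hiS : i ∈ S
    · exact M.smul_mem _ (M.smul_mem _ (hmono i hiS))
    · rw [hS i hi hiS, zero_smul]
      exact M.zero_mem
  let T : Submodule K V :=
    { carrier := {m | ∀ g' : SL(2, F), Ψ (ρ g' m) ∈ M}
      add_mem' := by
        intro a b ha hb g'
        rw [map_add, map_add]
        exact M.add_mem (ha g') (hb g')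
      zero_mem' := by intro g'; simp
      smul_mem' := by
        intro c a ha g'
        rw [map_smul, map_smul]
        exact M.smul_mem c (ha g') }
  have hT : T = ⊤ := by
    rcases irr_cases hρ T (by
      intro g m hm g'
      rw [← Module.End.mul_apply, ← map_mul]
      exact hm _) with h | h
    · exfalso
      have : v ∈ T := h1
      rw [h] at this
      exact hv0 (by simpa using this)
    · exact h
  have hrange : LinearMap.range Ψ ≤ M := by
    rintro _ ⟨m, rfl⟩
    have : m ∈ T := by rw [hT]; trivial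
    have := this 1
    simpa using this
  calc Module.finrank K V = Module.finrank K (LinearMap.range Ψ) :=
        (LinearMap.finrank_range_of_inj hinj).symm
    _ ≤ Module.finrank K M := Submodule.finrank_mono hrange
    _ ≤ (S.image mono).card := finrank_span_finset_le_card _
    _ ≤ S.card := Finset.card_image_le

lemma lower [Fintype F] (hF : Fintype.card F = 9) [FiniteDimensional K V] {v : V}
    (hρ : ρ.IsIrreducible) (hv0 : v ≠ 0)
    (hv : ∀ x, ρ (uu x) v = v) {f : Module.Dual K V} (hf0 : f ≠ 0)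
    (hf : ∀ x m, f (ρ (uu x) m) = f m) (ι : F →+* K) {j : ℕ} (hj : 0 < j) (hj7 : j ≤ 7)
    (hθ : ∀ a : Fˣ, ρ (tt a) v = (ι a) ^ j • v) (hfv : f v = 0) (S : Finset ℕ)
    (hS : ∀ i ∈ S, i ≤ j ∧ ((j.choose i : ℕ) : K) ≠ 0) :
    S.card ≤ Module.finrank K V := by
  classical
  have hx0 := coeff_ne ρ hρ hv0 hv hf0 hf ι hj hθ hfv
  let Θ : V →ₗ[K] (F → K) := LinearMap.pi (fun γ => f ∘ₗ ρ (um γ))
  have hΘ : ∀ m γ, Θ m γ = f (ρ (um γ) m) := fun m γ => rfl
  let pw : ℕ → (F → K) := fun e γ => (ι γ) ^ e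
  have hsum : ∀ i : ℕ, ∑ β : Fˣ, (ι β) ^ i = if 8 ∣ i then (-1 : K) else 0 := by
    intro i
    have h := FiniteField.sum_pow_units F i
    rw [hF] at h
    have h' := congrArg ι h
    rw [map_sum] at h'
    simp only [map_pow] at h'
    rw [h']
    norm_num
    split_ifs <;> simp
  have hmem : ∀ e ∈ S, pw e ∈ LinearMap.range Θ := by
    intro e he
    obtain ⟨hej, hc⟩ := hS e he
    let y : V := ∑ β : Fˣ, (ι β) ^ (8 - (j - e)) • ρ (um (β : F)) v
    have hy : Θ y = (-(f (ρ ww v)) * ((j.choose e : ℕ) : K)) • pw e := by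
      funext γ
      rw [hΘ]
      simp only [y, map_sum, map_smul]
      have h1 : ∀ β : Fˣ, f (ρ (um γ) (ρ (um (β : F)) v)) =
          ∑ i ∈ Finset.range (j + 1), (ι γ) ^ i * (ι β) ^ (j - i) * ((j.choose i : ℕ) : K) *
            f (ρ ww v) := by
        intro β
        rw [← Module.End.mul_apply, ← map_mul, ← um_add, coeff ρ hv hf ι hj hθ hfv]
        have : (um (γ + (β : F)) : SL(2, F)) 1 0 = γ + β := by simp
        rw [this, map_add, add_pow, Finset.sum_mul]
      simp only [h1, smul_eq_mul, Finset.mul_sum]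
      rw [Finset.sum_comm]
      have h2 : ∀ i ∈ Finset.range (j + 1), ∑ β : Fˣ, (ι β) ^ (8 - (j - e)) *
          ((ι γ) ^ i * (ι β) ^ (j - i) * ((j.choose i : ℕ) : K) * f (ρ ww v)) =
          if i = e then (-(f (ρ ww v)) * ((j.choose e : ℕ) : K)) * (ι γ) ^ e else 0 := by
        intro i hi
        have hi' : i ≤ j := by simpa [Nat.lt_succ_iff] using hi
        have h3 : ∀ β : Fˣ, (ι β) ^ (8 - (j - e)) *
            ((ι γ) ^ i * (ι β) ^ (j - i) * ((j.choose i : ℕ) : K) * f (ρ ww v)) =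
            ((ι γ) ^ i * ((j.choose i : ℕ) : K) * f (ρ ww v)) * (ι β) ^ (8 - (j - e) + (j - i)) := by
          intro β; rw [pow_add]; ring
        simp only [h3]
        rw [← Finset.mul_sum, hsum]
        have h4 : (8 ∣ 8 - (j - e) + (j - i)) ↔ i = e := by omega
        by_cases h5 : i = e
        · rw [if_pos (h4.mpr h5), if_pos h5, h5]; ring
        · rw [if_neg (fun h => h5 (h4.mp h)), if_neg h5, mul_zero]
      rw [Finset.sum_congr rfl h2, Finset.sum_ite_eq']
      rw [if_pos (by simp; omega)]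
      rfl
    have hne : (-(f (ρ ww v)) * ((j.choose e : ℕ) : K)) ≠ 0 := mul_ne_zero (neg_ne_zero.mpr hx0) hc
    have h6 : pw e = (-(f (ρ ww v)) * ((j.choose e : ℕ) : K))⁻¹ • Θ y := by
      rw [hy, smul_smul, inv_mul_cancel₀ hne, one_smul]
    rw [h6]
    exact Submodule.smul_mem _ _ ⟨y, rfl⟩
  -- independence of the power maps
  have hli : LinearIndependent K (fun e : Fin 8 => pw e) := by
    have h1 := linearIndependent_monoidHom F K
    let φ : Fin 8 → (F →* K) := fun e => (powMonoidHom (e : ℕ)).comp (ι : F →* K)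
    have hφ : Function.Injective φ := by
      obtain ⟨g₀, hg₀⟩ := IsCyclic.exists_generator (α := Fˣ)
      have ho : orderOf g₀ = 8 := by
        rw [orderOf_eq_card_of_forall_mem_zpowers hg₀, Nat.card_eq_fintype_card,
          Fintype.card_units, hF]
      intro a b hab
      have h2 := DFunLike.congr_fun hab (g₀ : F)
      change (ι (g₀ : F)) ^ (a : ℕ) = (ι (g₀ : F)) ^ (b : ℕ) at h2
      have h3 : g₀ ^ (a : ℕ) = g₀ ^ (b : ℕ) := by
        apply Units.ext
        rw [Units.val_pow_eq_pow_val, Units.val_pow_eq_pow_val]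
        apply ι.injective
        rw [map_pow, map_pow]; exact h2
      rw [pow_inj_mod, ho, Nat.mod_eq_of_lt a.2, Nat.mod_eq_of_lt b.2] at h3
      exact Fin.ext h3
    exact h1.comp φ hφ
  have hS8 : ∀ i : S, (i : ℕ) < 8 := fun i => by have := (hS i i.2).1; omega
  have hli2 : LinearIndependent K (fun e : S => (⟨pw e, hmem e e.2⟩ : LinearMap.range Θ)) := by
    have h1 := hli.comp (fun e : S => (⟨e, hS8 e⟩ : Fin 8)) (by
      intro a b hab
      exact Subtype.ext (Fin.mk.inj_iff.mp hab))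
    exact LinearIndependent.of_comp (LinearMap.range Θ).subtype h1
  calc S.card = Fintype.card S := (Fintype.card_coe S).symm
    _ ≤ Module.finrank K (LinearMap.range Θ) := hli2.fintype_card_le_finrank
    _ ≤ Module.finrank K V := LinearMap.finrank_range_le Θ

end modular

end Pool.Agent.E8helper57.Unitri
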