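import Mathlib
import Pool.Agent.E8helper57.UnitriModular

/-!
# The degrees of the faithful irreducible representations of `SL(2, 9)`, in characteristics three and zero
-/

set_option autoImplicit false

open Matrix
open scoped MatrixGroups

namespace Pool.Agent.E8helper57.Unitri

section common

variable {F : Type} [Field F] [Fintype F]

/-- a generator of the multiplicative group -/
lemma exists_gen (hF : Fintype.card F = 9) : ∃ g₀ : Fˣ, (∀ a : Fˣ, ∃ k : ℕ, g₀ ^ k = a) ∧
    orderOf g₀ = 8 ∧ g₀ ^ 4 = -1 := by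
  classical
  obtain ⟨g₀, hg₀⟩ := IsCyclic.exists_generator (α := Fˣ)
  have ho : orderOf g₀ = 8 := by
    rw [orderOf_eq_card_of_forall_mem_zpowers hg₀, Nat.card_eq_fintype_card,
      Fintype.card_units, hF]
  refine ⟨g₀, ?_, ho, ?_⟩
  · intro a
    have h := mem_powers_iff_mem_zpowers.mpr (hg₀ a)
    exact h
  · have h8 : g₀ ^ 8 = 1 := by rw [← ho, pow_orderOf_eq_one]
    have h4 : g₀ ^ 4 ≠ 1 := by
      intro h
      have := orderOf_dvd_of_pow_eq_one h
      rw [ho] at this
      omega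
    have h1 : ((g₀ ^ 4 : Fˣ) : F) ^ 2 = 1 := by
      rw [← Units.val_pow_eq_pow_val, ← pow_mul]
      norm_num [h8]
    have h5 : (((g₀ ^ 4 : Fˣ) : F) - 1) * (((g₀ ^ 4 : Fˣ) : F) + 1) = 0 := by
      linear_combination h1
    rcases mul_eq_zero.mp h5 with h | h
    · exact absurd (Units.ext (sub_eq_zero.mp h)) h4
    · exact Units.ext (by rw [eq_neg_of_add_eq_zero_left h]; simp)

end common

section modular

variable {F : Type} [Field F] [Fintype F] {K : Type} [Field K] [IsAlgClosed K]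
  {V : Type} [AddCommGroup V] [Module K V] [FiniteDimensional K V] (ρ : Representation K SL(2, F) V)

/-- The dimension in the presence of a highest weight vector and a functional vanishing on it. -/
lemma dim_of_pair [CharP K 3] (hF : Fintype.card F = 9) (hρ : ρ.IsIrreducible)
    (ι : F →+* K) {j : ℕ} (hj7 : j ≤ 7) (hodd : Odd j) {v : V} (hv0 : v ≠ 0)
    (hv : ∀ x, ρ (uu x) v = v) {f : Module.Dual K V} (hf0 : f ≠ 0)
    (hf : ∀ x m, f (ρ (uu x) m) = f m)
    (hθ : ∀ a : Fˣ, ρ (tt a) v = (ι a) ^ j • v) (hfv : f v = 0) :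
    Module.finrank K V ≤ 2 ∨ Module.finrank K V = 6 := by
  have hj : 0 < j := hodd.pos
  have h3 : (3 : K) = 0 := by exact_mod_cast CharP.cast_eq_zero K 3
  have c1 : (1 : K) ≠ 0 := one_ne_zero
  have hcast : ∀ n : ℕ, ((n : ℕ) : K) = 0 ↔ 3 ∣ n := fun n => CharP.cast_eq_zero_iff K 3 n
  have hcases : j = 1 ∨ j = 3 ∨ j = 5 ∨ j = 7 := by
    rcases hodd with ⟨m, rfl⟩; omega
  rcases hcases with rfl | rfl | rfl | rfl
  · left
    refine upper ρ hρ hv0 hv hf0 hf ι hj hθ hfv {0, 1} ?_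
    intro i hi hiS
    rw [hcast]
    revert i; decide
  · left
    refine upper ρ hρ hv0 hv hf0 hf ι hj hθ hfv {0, 3} ?_
    intro i hi hiS
    rw [hcast]
    revert i; decide
  · right
    refine le_antisymm (upper ρ hρ hv0 hv hf0 hf ι hj hθ hfv {0, 1, 2, 3, 4, 5} ?_)
      (lower ρ hF hρ hv0 hv hf0 hf ι hj hj7 hθ hfv {0, 1, 2, 3, 4, 5} ?_)
    · intro i hi hiS
      rw [hcast]
      revert i; decide
    · intro i hi
      rw [Ne, hcast]
      revert i; decide
  · right
    refine le_antisymm (upper ρ hρ hv0 hv hf0 hf ι hj hθ hfv {0, 1, 3, 4, 6, 7} ?_)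
      (lower ρ hF hρ hv0 hv hf0 hf ι hj hj7 hθ hfv {0, 1, 3, 4, 6, 7} ?_)
    · intro i hi hiS
      rw [hcast]
      revert i; decide
    · intro i hi
      rw [Ne, hcast]
      revert i; decide

/-- The faithful irreducible representations of `SL(2, 9)` in characteristic three have dimension at most
two, or six. -/
theorem modular_dim [CharP K 3] [CharP F 3] (hF : Fintype.card F = 9) (hρ : ρ.IsIrreducible)
    (ι : F →+* K) (hz : ∀ v, ρ (tt (-1)) v = - v) :
    Module.finrank K V ≤ 2 ∨ Module.finrank K V = 6 := by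
  obtain ⟨g₀, hgen, ho, hg4⟩ := exists_gen hF
  have h3K : (3 : K) = 0 := by exact_mod_cast CharP.cast_eq_zero K 3
  have h3F : (3 : F) = 0 := by exact_mod_cast CharP.cast_eq_zero F 3
  have h2K : (2 : K) ≠ 0 := by
    intro h
    have : (1 : K) = 0 := by linear_combination h3K - h
    exact one_ne_zero this
  have hVn := irr_nontrivial hρ
  -- the vector
  obtain ⟨v₀, hv₀, hv₀'⟩ := exists_fixed ρ h3K h3F
  obtain ⟨v, c, hv0, hv, hc⟩ := exists_weight ρ v₀ hv₀ hv₀' g₀
  -- the functional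
  obtain ⟨f₀, hf₀, hf₀'⟩ := exists_fixed ρ.dual h3K h3F
  obtain ⟨f, c', hf0, hf, hc'⟩ := exists_weight ρ.dual f₀ hf₀ hf₀' g₀
  obtain ⟨μ, hμ⟩ := exists_theta ρ.dual hgen hc'
  have hf1 := dual_fixed ρ hf
  have hμ1 := dual_weight ρ hμ
  -- the weight
  obtain ⟨θ, hθ⟩ := exists_theta ρ hgen hc
  have hζ : IsPrimitiveRoot (ι (g₀ : F)) 8 := by
    have h1 : IsPrimitiveRoot g₀ 8 := by rw [← ho]; exact IsPrimitiveRoot.orderOf g₀
    have h2 : IsPrimitiveRoot (g₀ : F) 8 := h1.map_of_injective (f := Units.coeHom F) Units.val_injective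
    exact h2.map_of_injective ι.injective
  have hθ8 : θ g₀ ^ 8 = 1 := by
    rw [← theta_pow ρ hv0 hθ, ← ho, pow_orderOf_eq_one, theta_one ρ hv0 hθ]
  obtain ⟨j, hj8, hj⟩ := hζ.eq_pow_of_pow_eq_one hθ8
  have hθ4 : θ g₀ ^ 4 = -1 := by
    rw [← theta_pow ρ hv0 hθ, hg4]
    have h6 : θ (-1) • v = (-1 : K) • v := by rw [← hθ, hz]; simp
    exact smul_left_injective K hv0 h6
  have hζ4 : ι (g₀ : F) ^ 4 = -1 := by
    have : ((g₀ ^ 4 : Fˣ) : F) = -1 := by rw [hg4]; simp
    rw [← map_pow, ← Units.val_pow_eq_pow_val, this, map_neg, map_one]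
  have hodd : Odd j := by
    by_contra h
    rw [Nat.not_odd_iff_even] at h
    have h1 : (-1 : K) ^ j = -1 := by
      rw [← hζ4, ← pow_mul, mul_comm, pow_mul, hj, hθ4, hζ4]
    rw [h.neg_one_pow] at h1
    apply h2K
    linear_combination h1
  have hθj : ∀ a : Fˣ, θ a = (ι a) ^ j := by
    intro a
    obtain ⟨k, rfl⟩ := hgen a
    rw [theta_pow ρ hv0 hθ, ← hj, Units.val_pow_eq_pow_val, map_pow, ← pow_mul, ← pow_mul,
      mul_comm]
  by_cases hfv : f v = 0
  · exact dim_of_pair ρ hF hρ ι (by omega) hodd hv0 hv hf0 hf1 (fun a => by rw [hθ, hθj]) hfv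
  · exfalso
    obtain ⟨hli, hfw⟩ := big ρ h2K hg4 hv0 hv hf1 hθ hμ1 (hz v) hfv
    have h9 : 9 ≤ Module.finrank K V := by
      rw [← hF]; exact hli.fintype_card_le_finrank
    have hv'0 : vsum ρ v ≠ 0 := by
      intro h
      rw [Fintype.linearIndependent_iff] at hli
      have := hli (fun _ => 1) (by simpa [vsum] using h) 0
      exact one_ne_zero this
    have h10 : f (vsum ρ v) = 0 := by
      rw [vsum_apply ρ hf1, hfw, mul_zero]
    have hθ' : ∀ a : Fˣ, ρ (tt a) (vsum ρ v) = (ι a) ^ (8 - j) • vsum ρ v := by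
      intro a
      rw [vsum_weight ρ v hθ, hθj]
      congr 1
      have h11 : (ι (a : F)) ^ 8 = 1 := by
        obtain ⟨k, rfl⟩ := hgen a
        rw [← map_pow, ← Units.val_pow_eq_pow_val, ← pow_mul, mul_comm, pow_mul, ← ho,
          pow_orderOf_eq_one]
        simp
      have h12 : (ι ((a⁻¹ : Fˣ) : F)) ^ j * (ι (a : F)) ^ j = 1 := by
        rw [← mul_pow, ← map_mul]; simp
      have h13 : (ι (a : F)) ^ (8 - j) * (ι (a : F)) ^ j = 1 := by
        rw [← pow_add, Nat.sub_add_cancel hj8.le, h11]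
      exact mul_right_cancel₀ (right_ne_zero_of_mul_eq_one h12) (h12.trans h13.symm)
    have hodd' : Odd (8 - j) := by
      rcases hodd with ⟨m, rfl⟩
      exact ⟨3 - m, by omega⟩
    have := dim_of_pair ρ hF hρ ι (j := 8 - j) (by have := hodd.pos; omega) hodd' hv'0
      (vsum_fixed ρ v) hf0 hf1 hθ' h10
    omega

end modular

section ordinary

lemma uu_inv {F : Type} [Field F] (y : F) : (uu y)⁻¹ = uu (-y) :=
  inv_eq_of_mul_eq_one_right (by rw [← uu_add, add_neg_cancel, uu_zero])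

/-- split a sum over a field -/
lemma sum_units {F : Type} [Field F] [Fintype F] [DecidableEq F] (t : F → ℂ) :
    ∑ x : F, t x = t 0 + ∑ a : Fˣ, t a := by
  rw [← Finset.add_sum_erase _ _ (Finset.mem_univ (0 : F))]
  congr 1
  symm
  refine Finset.sum_bij (fun a _ => (a : F)) ?_ ?_ ?_ ?_
  · intro a _; simp
  · intro a _ b _ h; exact Units.ext h
  · intro b hb
    exact ⟨Units.mk0 b (Finset.ne_of_mem_erase hb), Finset.mem_univ _, rfl⟩
  · intro a _; rfl

lemma sum_units_cyclic {F : Type} [Field F] [Fintype F] [DecidableEq F] {g₀ : Fˣ}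
    (hgen : ∀ a : Fˣ, ∃ k : ℕ, g₀ ^ k = a) (ho : orderOf g₀ = 8) (t : Fˣ → ℂ) :
    ∑ a : Fˣ, t a = ∑ k ∈ Finset.range 8, t (g₀ ^ k) := by
  symm
  refine Finset.sum_bij (fun k _ => g₀ ^ k) ?_ ?_ ?_ ?_
  · intro a _; simp
  · intro a ha b hb h
    rw [pow_inj_mod, ho, Nat.mod_eq_of_lt (Finset.mem_range.mp ha),
      Nat.mod_eq_of_lt (Finset.mem_range.mp hb)] at h
    exact h
  · intro b _
    obtain ⟨k, hk⟩ := hgen b
    refine ⟨k % 8, Finset.mem_range.mpr (Nat.mod_lt _ (by norm_num)), ?_⟩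
    rw [← hk, ← ho, pow_mod_orderOf]
  · intro a _; rfl

variable {F : Type} [Field F] [Fintype F] {V : Type} [AddCommGroup V] [Module ℂ V]
  [FiniteDimensional ℂ V] (ρ : Representation ℂ SL(2, F) V)

/-- traces of elements of finite order are algebraic integers -/
lemma isIntegral_trace_of_pow {A : V →ₗ[ℂ] V} {m : ℕ} (hm : 0 < m) (hA : A ^ m = 1) :
    IsIntegral ℤ (LinearMap.trace ℂ V A) := by
  have h1 : A.charpoly.Splits := IsAlgClosed.splits _
  rw [Module.End.trace_eq_sum_roots_charpoly_of_splits h1]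
  refine IsIntegral.multiset_sum ?_
  intro x hx
  have h2 : Module.End.HasEigenvalue A x := by
    rw [Module.End.hasEigenvalue_iff_isRoot_charpoly]
    exact Polynomial.isRoot_of_mem_roots hx
  obtain ⟨v, hv⟩ := h2.exists_hasEigenvector
  have h3 : x ^ m = 1 := by
    have h4 : (A ^ m) v = x ^ m • v := hv.pow_apply m
    rw [hA] at h4
    have h5 : x ^ m • v = (1 : ℂ) • v := by rw [← h4, one_smul]; rfl
    exact smul_left_injective ℂ hv.2 h5
  refine ⟨Polynomial.X ^ m - 1, Polynomial.monic_X_pow_sub_C 1 hm.ne', ?_⟩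
  simp [h3]

/-- The faithful irreducible complex representations of `SL(2, 9)` have dimension divisible by four, or
at least nine. -/
theorem ordinary_dim [CharP F 3] (hF : Fintype.card F = 9) (hρ : ρ.IsIrreducible)
    (hz : ∀ v, ρ (tt (-1)) v = - v) :
    4 ∣ Module.finrank ℂ V ∨ 9 ≤ Module.finrank ℂ V := by
  classical
  obtain ⟨g₀, hgen, ho, hg4⟩ := exists_gen hF
  have h3F : (3 : F) = 0 := by exact_mod_cast CharP.cast_eq_zero F 3
  have h2 : (2 : ℂ) ≠ 0 := two_ne_zero
  by_cases hU : ∃ v : V, v ≠ 0 ∧ ∀ x : F, ρ (uu x) v = v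
  · right
    obtain ⟨v₀, hv₀, hv₀'⟩ := hU
    obtain ⟨v, c, hv0, hv, hc⟩ := exists_weight ρ v₀ hv₀ hv₀' g₀
    obtain ⟨θ, hθ⟩ := exists_theta ρ hgen hc
    -- an invariant functional
    obtain ⟨f₀, hf₀⟩ : ∃ f : Module.Dual ℂ V, f v ≠ 0 := by
      by_contra h
      push Not at h
      exact hv0 ((Module.forall_dual_apply_eq_zero_iff ℂ v).mp h)
    let f₁ : Module.Dual ℂ V := ∑ x : F, f₀ ∘ₗ ρ (uu x)
    have hf₁ : f₁ v ≠ 0 := by
      have : f₁ v = (9 : ℂ) * f₀ v := by
        simp only [f₁, LinearMap.sum_apply, LinearMap.comp_apply, hv, Finset.sum_const,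
          Finset.card_univ, hF]
        simp
      rw [this]
      exact mul_ne_zero (by norm_num) hf₀
    have hf₁0 : f₁ ≠ 0 := by
      intro h; rw [h] at hf₁; exact hf₁ rfl
    have hf₁U : ∀ x, ρ.dual (uu x) f₁ = f₁ := by
      intro y
      ext m
      rw [Representation.dual_apply]
      simp only [Module.Dual.transpose_apply, LinearMap.comp_apply, f₁, LinearMap.sum_apply]
      refine Fintype.sum_equiv (Equiv.addRight (-y)) _ _ ?_
      intro x
      rw [← Module.End.mul_apply, ← map_mul, uu_inv, ← uu_add]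
      rfl
    obtain ⟨f, c', hf0, hf, hc'⟩ := exists_weight ρ.dual f₁ hf₁0 hf₁U g₀
    obtain ⟨μ, hμ⟩ := exists_theta ρ.dual hgen hc'
    have hf1 := dual_fixed ρ hf
    have hμ1 := dual_weight ρ hμ
    rw [← hF]
    by_cases hfv : f v = 0
    · have hww : f (ρ ww v) ≠ 0 := by
        intro h
        refine hv0 (irr_functional hρ hf0 (fun g => ?_))
        by_cases hg : g 1 0 = 0
        · obtain ⟨a, ha⟩ := apply_of_eq ρ hv hθ g hg
          rw [ha, map_smul, hfv, smul_zero]
        · rw [apply_of_ne ρ hv hf1 hθ g (Units.mk0 _ hg) rfl, h, mul_zero]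
      have h1 : f (vsum ρ v) ≠ 0 := by
        rw [vsum_apply ρ hf1, hF]
        exact mul_ne_zero (by norm_num) hww
      have h2' : vsum ρ v ≠ 0 := by
        intro h; rw [h, map_zero] at h1; exact h1 rfl
      exact (big ρ h2 hg4 h2' (vsum_fixed ρ v) hf1 (fun a => vsum_weight ρ v hθ a) hμ1 (hz _)
        h1).1.fintype_card_le_finrank
    · exact (big ρ h2 hg4 hv0 hv hf1 hθ hμ1 (hz v) hfv).1.fintype_card_le_finrank
  · left
    push Not at hU
    have h0 : ∑ x : F, ρ (uu x) = 0 := by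
      ext v
      rw [LinearMap.sum_apply, LinearMap.zero_apply]
      by_contra h
      obtain ⟨y, hy⟩ := hU _ h
      apply hy
      rw [map_sum]
      refine Fintype.sum_equiv (Equiv.addLeft y) _ _ ?_
      intro x
      rw [← Module.End.mul_apply, ← map_mul, ← uu_add]
      rfl
    let t : F → ℂ := fun x => LinearMap.trace ℂ V (ρ (uu x))
    have ht0 : ∑ x : F, t x = 0 := by
      simp only [t]
      rw [← map_sum, h0, map_zero]
    have htc : ∀ (a : Fˣ) (x : F), t ((a : F) ^ 2 * x) = t x := by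
      intro a x
      have h1 : uu ((a : F) ^ 2 * x) = tt a * uu x * (tt a)⁻¹ := by
        rw [tt_mul_uu]; group
      simp only [t]
      rw [h1, ρ.map_mul, LinearMap.trace_mul_comm, ← ρ.map_mul]
      congr 2
      group
    -- split the sum
    have hsplit : ∑ x : F, t x = t 0 + ∑ a : Fˣ, t a := sum_units t
    have hsum : ∑ a : Fˣ, t a = 4 * (t 1 + t g₀) := by
      rw [sum_units_cyclic hgen ho (fun a => t a)]
      have hstep : ∀ k : ℕ, t ((g₀ ^ (k + 2) : Fˣ) : F) = t ((g₀ ^ k : Fˣ) : F) := by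
        intro k
        rw [← htc g₀ ((g₀ ^ k : Fˣ) : F)]
        congr 1
        rw [← Units.val_pow_eq_pow_val, ← Units.val_mul, ← pow_add, add_comm]
      have e0 : t ((g₀ ^ 0 : Fˣ) : F) = t 1 := by simp
      have e1 : t ((g₀ ^ 1 : Fˣ) : F) = t g₀ := by simp
      simp only [Finset.sum_range_succ, Finset.sum_range_zero, zero_add]
      rw [hstep 5, hstep 3, hstep 1, hstep 4, hstep 2, hstep 0, e0, e1]
      ring
    have ht0' : t 0 = Module.finrank ℂ V := by
      simp only [t]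
      rw [uu_zero, map_one, LinearMap.trace_one]
    have hint : IsIntegral ℤ (t 1 + t g₀) := by
      refine IsIntegral.add ?_ ?_
      all_goals
        refine isIntegral_trace_of_pow (m := 3) (by norm_num) ?_
        rw [← map_pow, pow_succ, pow_two, ← uu_add, ← uu_add]
        first
          | rw [show (1 : F) + 1 + 1 = 3 by norm_num, h3F, uu_zero, map_one]
          | rw [show (g₀ : F) + g₀ + g₀ = 3 * g₀ by ring, h3F, zero_mul, uu_zero, map_one]
    have h5 : ((Module.finrank ℂ V : ℕ) : ℂ) = - 4 * (t 1 + t g₀) := by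
      linear_combination ht0 - hsplit - hsum - ht0'
    have h6 : (((-(Module.finrank ℂ V : ℚ) / 4 : ℚ)) : ℂ) = t 1 + t g₀ := by
      push_cast
      linear_combination (-1 / 4 : ℂ) * h5
    rw [← h6] at hint
    have h7 : IsIntegral ℤ (-(Module.finrank ℂ V : ℚ) / 4 : ℚ) := by
      refine (isIntegral_algebraMap_iff (algebraMap ℚ ℂ).injective).mp ?_
      simpa using hint
    obtain ⟨z, hz'⟩ := IsIntegrallyClosed.isIntegral_iff.mp h7
    have h8 : (Module.finrank ℂ V : ℚ) = ((-4 * z : ℤ) : ℚ) := by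
      push_cast
      simp only [eq_intCast] at hz'
      linarith
    have h9 : (Module.finrank ℂ V : ℤ) = -4 * z := by exact_mod_cast h8
    omega

end ordinary

end Pool.Agent.E8helper57.Unitri
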