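import Mathlib
import Pool.Agent.E8helper57.BlockDefs
import Pool.Agent.E8helper57.UnitriDim9

/-!
# Brauer characters, central characters, and the natural representation
-/

set_option autoImplicit false

open Matrix
open scoped MatrixGroups

namespace Pool.Agent.E8helper57.Unitri

section lifts

variable {ℓ : ℕ} [Fact ℓ.Prime] (red : AlgInt →+* Kbar ℓ)

lemma eq_one_of_red {x : AlgInt} (hx : IsRegRoot ℓ x) (h : red x = 1) : x = 1 := by
  obtain ⟨m, hm, hxm⟩ := hx
  by_contra hne
  have h1 : (x - 1) * ∑ i ∈ Finset.range m, x ^ i = 0 := by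
    rw [mul_comm, geom_sum_mul, hxm, sub_self]
  have h2 : ∑ i ∈ Finset.range m, x ^ i = 0 :=
    (mul_eq_zero.mp h1).resolve_left (sub_ne_zero.mpr hne)
  have h3 := congrArg red h2
  rw [map_sum] at h3
  simp only [map_pow, h, one_pow, Finset.sum_const, Finset.card_range, map_zero, nsmul_eq_mul,
    mul_one] at h3
  have h4 : ℓ ∣ m := (CharP.cast_eq_zero_iff (Kbar ℓ) ℓ m).mp h3
  have h5 := Nat.Coprime.eq_one_of_dvd hm.symm h4
  exact (Fact.out : ℓ.Prime).one_lt.ne' h5

lemma exists_lift {m : ℕ} (hm : m.Coprime ℓ) {a : Kbar ℓ} (ha : a ^ m = 1) :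
    ∃ x : AlgInt, x ^ m = 1 ∧ red x = a := by
  have hm0 : m ≠ 0 := by
    rintro rfl
    rw [Nat.coprime_zero_left] at hm
    exact (Fact.out : ℓ.Prime).one_lt.ne' hm
  have : NeZero m := ⟨hm0⟩
  have hω := Complex.isPrimitiveRoot_exp m hm0
  let ω : AlgInt := ⟨Complex.exp (2 * Real.pi * Complex.I / m), hω.isIntegral (Nat.pos_of_ne_zero hm0)⟩
  have hω' : IsPrimitiveRoot ω m := by
    refine IsPrimitiveRoot.of_map_of_injective (f := (integralClosure ℤ ℂ).subtype) hω ?_
    exact Subtype.val_injective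
  have hr : IsPrimitiveRoot (red ω) m := by
    refine ⟨by rw [← map_pow, hω'.pow_eq_one, map_one], ?_⟩
    intro l hl
    rw [← map_pow] at hl
    have h1 : ω ^ l = 1 := eq_one_of_red red ⟨m, hm, by
      rw [← pow_mul, mul_comm, pow_mul, hω'.pow_eq_one, one_pow]⟩ hl
    exact hω'.dvd_of_pow_eq_one l h1
  obtain ⟨i, _, hi⟩ := hr.eq_pow_of_pow_eq_one ha
  refine ⟨ω ^ i, ?_, by rw [map_pow, hi]⟩
  rw [← pow_mul, mul_comm, pow_mul, hω'.pow_eq_one, one_pow]

variable {G : Type} [Group G] {V : Type} [AddCommGroup V]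
    [Module (Kbar ℓ) V] [FiniteDimensional (Kbar ℓ) V] (ρ : Representation (Kbar ℓ) G V)

lemma root_pow {m : ℕ} {g : G} (hg : g ^ m = 1) {a : Kbar ℓ}
    (ha : a ∈ (LinearMap.charpoly (ρ g)).roots) : a ^ m = 1 := by
  have h2 : Module.End.HasEigenvalue (ρ g) a := by
    rw [Module.End.hasEigenvalue_iff_isRoot_charpoly]
    exact Polynomial.isRoot_of_mem_roots ha
  obtain ⟨v, hv⟩ := h2.exists_hasEigenvector
  have h4 : ((ρ g) ^ m) v = a ^ m • v := hv.pow_apply m
  rw [← map_pow, hg, map_one] at h4
  have h5 : a ^ m • v = (1 : Kbar ℓ) • v := by rw [← h4, one_smul]; rfl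
  exact smul_left_injective (Kbar ℓ) hv.2 h5

/-- Every representation has a Brauer character. -/
lemma exists_brauerChar : ∃ φ : Reg ℓ G → ℂ, IsBrauerCharOf red ρ φ := by
  classical
  have h : ∀ g : Reg ℓ G, ∃ s : Multiset AlgInt, (∀ x ∈ s, IsRegRoot ℓ x) ∧
      s.map red = (LinearMap.charpoly (ρ g.1)).roots := by
    intro g
    have h1 : ∀ a : Kbar ℓ, ∃ x : AlgInt, a ^ (orderOf g.1) = 1 →
        x ^ (orderOf g.1) = 1 ∧ red x = a := by
      intro a
      by_cases ha : a ^ (orderOf g.1) = 1
      · obtain ⟨x, hx, hx'⟩ := exists_lift red g.2 ha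
        exact ⟨x, fun _ => ⟨hx, hx'⟩⟩
      · exact ⟨0, fun h => absurd h ha⟩
    choose L hL using h1
    have h2 : ∀ a ∈ (LinearMap.charpoly (ρ g.1)).roots, a ^ (orderOf g.1) = 1 :=
      fun a ha => root_pow ρ (pow_orderOf_eq_one g.1) ha
    refine ⟨(LinearMap.charpoly (ρ g.1)).roots.map L, ?_, ?_⟩
    · intro x hx
      obtain ⟨a, ha, rfl⟩ := Multiset.mem_map.mp hx
      exact ⟨_, g.2, (hL a (h2 a ha)).1⟩
    · rw [Multiset.map_map]
      conv_rhs => rw [← Multiset.map_id (LinearMap.charpoly (ρ g.1)).roots]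
      exact Multiset.map_congr rfl (fun a ha => (hL a (h2 a ha)).2)
  choose s hs1 hs2 using h
  exact ⟨fun g => ((s g).map (fun x : AlgInt => (x : ℂ))).sum, fun g => ⟨s g, hs1 g, hs2 g, rfl⟩⟩

/-- The value of a Brauer character at the identity. -/
lemma brauerChar_one {φ : Reg ℓ G → ℂ} (hφ : IsBrauerCharOf red ρ φ)
    (h1 : (orderOf (1 : G)).Coprime ℓ) :
    φ ⟨1, h1⟩ = Module.finrank (Kbar ℓ) V := by
  obtain ⟨s, hs1, hs2, hs3⟩ := hφ ⟨1, h1⟩
  have hcard : Multiset.card s = Module.finrank (Kbar ℓ) V := by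
    have h2 : Multiset.card (s.map red) = Multiset.card s := Multiset.card_map _ _
    rw [← h2, hs2, Polynomial.splits_iff_card_roots.mp (IsAlgClosed.splits _),
      LinearMap.charpoly_natDegree]
  have hall : ∀ x ∈ s, (x : ℂ) = 1 := by
    intro x hx
    have h3 : red x ∈ (LinearMap.charpoly (ρ (1 : G))).roots := by
      have : red x ∈ s.map red := Multiset.mem_map_of_mem _ hx
      rw [hs2] at this
      exact this
    have h4 := root_pow ρ (m := 1) (g := 1) (by simp) h3
    rw [pow_one] at h4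
    rw [eq_one_of_red red (hs1 x hx) h4]
    rfl
  rw [hs3, Multiset.map_congr rfl hall, Multiset.map_const', Multiset.sum_replicate, hcard]
  simp

end lifts

section schur

variable {K : Type} [Field K] {G : Type} [Group G] [Finite G] {V : Type} [AddCommGroup V]
  [Module K V] (ρ : Representation K G V)

lemma classSum_eq (C : ConjClasses G) :
    classSum ρ C = ∑ g ∈ (Set.toFinite C.carrier).toFinset, ρ g :=
  finsum_mem_eq_finite_toFinset_sum _ _

lemma classSum_comm (C : ConjClasses G) (h : G) :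
    ρ h ∘ₗ classSum ρ C = classSum ρ C ∘ₗ ρ h := by
  classical
  ext v
  rw [classSum_eq]
  simp only [LinearMap.comp_apply, LinearMap.sum_apply, map_sum]
  refine Finset.sum_bij (fun g _ => h * g * h⁻¹) ?_ ?_ ?_ ?_
  · intro g hg
    simp only [Set.Finite.mem_toFinset, ConjClasses.mem_carrier_iff_mk_eq] at hg ⊢
    rw [← hg, ConjClasses.mk_eq_mk_iff_isConj]
    exact (isConj_iff.mpr ⟨h, rfl⟩).symm
  · intro a _ b _ hab
    simpa using hab
  · intro b hb
    refine ⟨h⁻¹ * b * h, ?_, by group⟩
    simp only [Set.Finite.mem_toFinset, ConjClasses.mem_carrier_iff_mk_eq] at hb ⊢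
    rw [← hb, ConjClasses.mk_eq_mk_iff_isConj]
    exact isConj_iff.mpr ⟨h, by group⟩
  · intro g _
    rw [← Module.End.mul_apply, ← Module.End.mul_apply, ← map_mul, ← map_mul]
    congr 2
    group

lemma exists_scalar [IsAlgClosed K] [FiniteDimensional K V] (hρ : ρ.IsIrreducible)
    (C : ConjClasses G) : ∃ c : K, classSum ρ C = c • LinearMap.id := by
  have := irr_nontrivial hρ
  obtain ⟨c, hc⟩ := Module.End.exists_eigenvalue (classSum ρ C)
  refine ⟨c, ?_⟩
  rcases irr_cases hρ (Module.End.eigenspace (classSum ρ C) c) (by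
    intro g v hv
    rw [Module.End.mem_eigenspace_iff] at hv ⊢
    have h := LinearMap.congr_fun (classSum_comm ρ C g) v
    simp only [LinearMap.comp_apply] at h
    rw [← h, hv, map_smul]) with h | h
  · exact absurd h hc
  · ext v
    have : v ∈ Module.End.eigenspace (classSum ρ C) c := by rw [h]; trivial
    rw [Module.End.mem_eigenspace_iff] at this
    simpa using this

omit [Finite G] in
lemma classSum_central {z : G} (hz : ∀ g, g * z = z * g) :
    classSum ρ (ConjClasses.mk z) = ρ z := by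
  have : (ConjClasses.mk z).carrier = {z} := by
    ext g
    rw [ConjClasses.mem_carrier_iff_mk_eq, Set.mem_singleton_iff, ConjClasses.mk_eq_mk_iff_isConj,
      isConj_comm, isConj_iff]
    constructor
    · rintro ⟨c, hc⟩
      rw [← hc, hz c]; group
    · rintro rfl
      exact ⟨1, by simp⟩
  rw [classSum, this, finsum_mem_singleton]

end schur

section natural

variable {F : Type} [Field F] {K : Type} [Field K] (ι : F →+* K)

/-- The natural two-dimensional representation of `SL(2, F)` over an extension field. -/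
noncomputable def natRep : Representation K SL(2, F) (Fin 2 → K) where
  toFun g := Matrix.toLin' ((g : Matrix (Fin 2) (Fin 2) F).map ι)
  map_one' := by
    rw [Matrix.SpecialLinearGroup.coe_one, Matrix.map_one _ (map_zero ι) (map_one ι),
      Matrix.toLin'_one]
    rfl
  map_mul' g h := by
    rw [Matrix.SpecialLinearGroup.coe_mul, Matrix.map_mul, Matrix.toLin'_mul]
    rfl

lemma natRep_apply (g : SL(2, F)) (v : Fin 2 → K) :
    natRep ι g v = ((g : Matrix (Fin 2) (Fin 2) F).map ι).mulVec v := by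
  simp [natRep]

lemma natRep_irr : (natRep ι).IsIrreducible := by
  have hnt : Nontrivial (Subrepresentation (natRep ι)) := by
    refine ⟨⊥, ⊤, ?_⟩
    intro h
    have h1 : (⊥ : Submodule K (Fin 2 → K)) = ⊤ := congrArg Subrepresentation.toSubmodule h
    exact bot_ne_top h1
  refine { eq_bot_or_eq_top := ?_ }
  intro S
  by_cases hS : S.toSubmodule = ⊥
  · left
    exact Subrepresentation.toSubmodule_injective hS
  · right
    apply Subrepresentation.toSubmodule_injective
    change S.toSubmodule = ⊤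
    obtain ⟨v, hv, hv0⟩ := Submodule.exists_mem_ne_zero_of_ne_bot hS
    -- the first basis vector
    have he0 : ∃ c : K, c ≠ 0 ∧ (![c, 0] : Fin 2 → K) ∈ S.toSubmodule := by
      by_cases h1 : v 1 = 0
      · refine ⟨v 0, ?_, ?_⟩
        · intro h0
          apply hv0
          ext i; fin_cases i
          · exact h0
          · exact h1
        · convert hv using 1
          ext i; fin_cases i
          · rfl
          · simp [h1]
      · refine ⟨v 1, h1, ?_⟩
        have h2 := S.toSubmodule.sub_mem (S.apply_mem_toSubmodule (uu 1) hv) hv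
        convert h2 using 1
        rw [natRep_apply]
        ext i; fin_cases i <;> simp
    obtain ⟨c, hc, hc'⟩ := he0
    have he1 : (![0, c] : Fin 2 → K) ∈ S.toSubmodule := by
      have h2 := S.toSubmodule.sub_mem (S.apply_mem_toSubmodule (um 1) hc') hc'
      convert h2 using 1
      rw [natRep_apply]
      ext i; fin_cases i <;> simp
    rw [eq_top_iff]
    intro w _
    have h3 := S.toSubmodule.add_mem (S.toSubmodule.smul_mem (w 0 * c⁻¹) hc')
      (S.toSubmodule.smul_mem (w 1 * c⁻¹) he1)
    convert h3 using 1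
    ext i; fin_cases i <;> simp [hc]

lemma tt_neg_one_central (g : SL(2, F)) : g * tt (-1) = tt (-1) * g := by
  ext i j
  rw [Matrix.SpecialLinearGroup.coe_mul, Matrix.SpecialLinearGroup.coe_mul, Matrix.mul_apply,
    Matrix.mul_apply, Fin.sum_univ_two, Fin.sum_univ_two, tt_coe]
  fin_cases i <;> fin_cases j <;> simp

lemma natRep_neg (v : Fin 2 → K) : natRep ι (tt (-1)) v = - v := by
  rw [natRep_apply]
  ext i; fin_cases i <;> simp [Matrix.mulVec, dotProduct, Fin.sum_univ_two]

end natural

end Pool.Agent.E8helper57.Unitri
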