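import Mathlib
import Pool.Agent.E8helper57.BlockDefs

/-!
# Existence of reduction maps
-/

set_option autoImplicit false

namespace Pool.Agent.E8helper57.Unitri

lemma red_aux (ℓ : ℕ) [hℓ : Fact ℓ.Prime] {L : Type} [Field L] [CharP L ℓ] (φ : AlgInt →+* L)
    (hφ : Function.Surjective φ) : Nonempty (L →+* Kbar ℓ) := by
  let _ : Algebra (ZMod ℓ) L := ZMod.algebra L ℓ
  have halg : Algebra.IsAlgebraic (ZMod ℓ) L := by
    refine ⟨fun x => ?_⟩
    obtain ⟨r, rfl⟩ := hφ x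
    have h1 : IsIntegral ℤ r := integralClosure.isIntegral r
    have h2 : IsIntegral ℤ (φ r) := h1.map φ.toIntAlgHom
    have h3 : IsIntegral (ZMod ℓ) (φ r) := h2.tower_top
    exact h3.isAlgebraic
  exact ⟨((IsAlgClosed.lift : L →ₐ[ZMod ℓ] Kbar ℓ) : L →+* Kbar ℓ)⟩

/-- There are reduction maps from the algebraic integers to the algebraic closure of `ZMod ℓ`. -/
theorem exists_red (ℓ : ℕ) [hℓ : Fact ℓ.Prime] : Nonempty (AlgInt →+* Kbar ℓ) := by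
  have hnu : Ideal.span {((ℓ : ℕ) : AlgInt)} ≠ ⊤ := by
    rw [Ne, Ideal.span_singleton_eq_top]
    intro hu
    obtain ⟨y, hy⟩ := hu.exists_right_inv
    have h1 : (ℓ : ℂ) * (y : ℂ) = 1 := by
      have := congrArg (fun x : AlgInt => (x : ℂ)) hy
      simpa using this
    have hℓ0 : (ℓ : ℂ) ≠ 0 := by exact_mod_cast hℓ.out.ne_zero
    have h2 : (y : ℂ) = (((ℓ : ℚ)⁻¹ : ℚ) : ℂ) := by
      push_cast
      exact eq_inv_of_mul_eq_one_right h1
    have h3 : IsIntegral ℤ (((ℓ : ℚ)⁻¹ : ℚ) : ℂ) := h2 ▸ y.2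
    have h4 : IsIntegral ℤ ((ℓ : ℚ)⁻¹ : ℚ) := by
      refine (isIntegral_algebraMap_iff (algebraMap ℚ ℂ).injective).mp ?_
      simpa using h3
    obtain ⟨z, hz⟩ := IsIntegrallyClosed.isIntegral_iff.mp h4
    have h5 : (ℓ : ℚ) ≠ 0 := by exact_mod_cast hℓ.out.ne_zero
    have h6 : ((z * ℓ : ℤ) : ℚ) = 1 := by
      push_cast
      simp only [eq_intCast] at hz
      rw [hz, inv_mul_cancel₀ h5]
    have h7 : z * (ℓ : ℤ) = 1 := by exact_mod_cast h6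
    have h8 : (ℓ : ℤ) ∣ 1 := ⟨z, by rw [mul_comm]; exact h7.symm⟩
    have h9 : ℓ ∣ 1 := by exact_mod_cast h8
    exact hℓ.out.one_lt.ne' (Nat.dvd_one.mp h9)
  obtain ⟨M, hM, hle⟩ := Ideal.exists_le_maximal _ hnu
  have hmem : ((ℓ : ℕ) : AlgInt) ∈ M := hle (Ideal.subset_span rfl)
  let _ : Field (AlgInt ⧸ M) := Ideal.Quotient.field M
  have hchar : CharP (AlgInt ⧸ M) ℓ := by
    have h1 : ((ℓ : ℕ) : AlgInt ⧸ M) = 0 := by
      rw [← map_natCast (Ideal.Quotient.mk M)]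
      exact Ideal.Quotient.eq_zero_iff_mem.mpr hmem
    exact (CharP.charP_iff_prime_eq_zero hℓ.out).mpr h1
  obtain ⟨ψ⟩ := red_aux ℓ (Ideal.Quotient.mk M) Ideal.Quotient.mk_surjective
  exact ⟨ψ.comp (Ideal.Quotient.mk M)⟩

end Pool.Agent.E8helper57.Unitri
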